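import Pool.Agent.Helper2SYT.Sym

set_option autoImplicit false
set_option linter.unusedSectionVars false

/-!
# Closed forms for the two factors of the splitting
-/

namespace Pool.Agent.Helper2SYT

open Finset Function

theorem V_sub_const {n : ℕ} (v : Fin n → ℚ) (c : ℚ) : V (fun j => v j - c) = V v := by
  unfold V
  apply prod_congr rfl
  intro i _
  apply prod_congr rfl
  intro j _
  ring

theorem lv_cons {n : ℕ} (a : ℕ) (r : Fin n → ℕ) :
    lv (Fin.cons a r : Fin (n + 1) → ℕ) = Fin.cons (a + n) (lv r) := by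
  funext i
  refine Fin.cases ?_ (fun j => ?_) i
  · unfold lv
    simp
  · unfold lv
    rw [Fin.cons_succ, Fin.cons_succ]
    simp only [Fin.val_rev, Fin.val_succ]
    omega

theorem cast_cons {n : ℕ} (a : ℕ) (r : Fin n → ℕ) :
    (fun i => (((Fin.cons a r : Fin (n + 1) → ℕ) i : ℕ) : ℚ)) =
      Fin.cons (a : ℚ) (fun i => (r i : ℚ)) := by
  funext i
  refine Fin.cases ?_ (fun j => ?_) i
  · rw [Fin.cons_zero, Fin.cons_zero]
  · rw [Fin.cons_succ, Fin.cons_succ]

/-- the lower factor -/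
theorem closed_low (m : ℕ) (σ : Fin (m + 1) → ℕ) (hanti : Antitone σ) (hσ : ∀ j, σ j ≤ m) :
    (num Adj (shp (Fin.cons (m + 1) (Fin.cons m σ) : Fin (m + 1 + 2) → ℕ)) : ℚ) =
      ((2 * m + 1 + ∑ j, σ j).factorial : ℚ) * (2 * (∏ j, (2 * (m : ℚ) + 3 - lv σ j)) *
        (∏ j, (2 * (m : ℚ) + 1 - lv σ j)) * V (fun j => (lv σ j : ℚ))) /
        (((2 * m + 3).factorial : ℚ) * ((2 * m + 1).factorial : ℚ) *
          ∏ j, ((lv σ j).factorial : ℚ)) := by
  have hA : Antitone (Fin.cons (m + 1) (Fin.cons m σ) : Fin (m + 1 + 2) → ℕ) := by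
    apply antitone_cons
    · intro j
      refine Fin.cases ?_ (fun k => ?_) j
      · simp
      · rw [Fin.cons_succ]; have := hσ k; omega
    · exact antitone_cons hσ hanti
  rw [num_partition _ _ rfl hA]
  unfold G
  rw [sum_lv, Nat.add_sub_cancel_left, lv_cons, lv_cons, cast_cons, cast_cons]
  have e1 : ∑ i, (Fin.cons (m + 1) (Fin.cons m σ) : Fin (m + 1 + 2) → ℕ) i =
      2 * m + 1 + ∑ j, σ j := by
    rw [Fin.sum_univ_succ, Fin.sum_univ_succ]
    simp only [Fin.cons_zero, Fin.cons_succ]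
    ring
  have e2 : m + 1 + (m + 1 + 1) = 2 * m + 3 := by ring
  have e3 : m + (m + 1) = 2 * m + 1 := by ring
  have e4 : V (Fin.cons (((m + 1 + (m + 1 + 1) : ℕ)) : ℚ) (Fin.cons (((m + (m + 1) : ℕ)) : ℚ)
      (fun i => (lv σ i : ℚ))) : Fin (m + 1 + 1 + 1) → ℚ) =
      2 * (∏ j, (2 * (m : ℚ) + 3 - lv σ j)) *
        (∏ j, (2 * (m : ℚ) + 1 - lv σ j)) * V (fun j => (lv σ j : ℚ)) := by
    rw [V_cons, V_cons, Fin.prod_univ_succ, e2, e3]
    simp only [Fin.cons_zero, Fin.cons_succ]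
    push_cast
    have e5 : (2 * (m : ℚ) + 3 - (2 * m + 1)) = 2 := by ring
    rw [e5]
    ring
  have e6 : ∏ i, (((Fin.cons (m + 1 + (m + 1 + 1)) (Fin.cons (m + (m + 1)) (lv σ)) :
      Fin (m + 1 + 1 + 1) → ℕ) i).factorial : ℚ) =
      ((2 * m + 3).factorial : ℚ) * ((2 * m + 1).factorial : ℚ) *
          ∏ j, ((lv σ j).factorial : ℚ) := by
    rw [Fin.prod_univ_succ, Fin.prod_univ_succ, e2, e3]
    simp only [Fin.cons_zero, Fin.cons_succ]
    ring
  rw [e4, e6, e1]

/-- the upper factor -/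
theorem closed_up (m : ℕ) (σ : Fin (m + 1) → ℕ) (hanti : Antitone σ) (hσ : ∀ j, σ j ≤ m) :
    (hh (m + 1) (Fin.cons (m + 1) σ) : ℚ) =
      ((2 + ∑ j, (m + 3 - σ j)).factorial : ℚ) * ((∏ j, (2 * (m : ℚ) + 2 - lv σ j)) *
        V (fun j => (lv σ j : ℚ))) /
        (2 * ∏ j, ((2 * m + 4 - lv σ j).factorial : ℚ)) := by
  have hA : Antitone (Fin.cons (m + 1) σ : Fin (m + 1 + 1) → ℕ) := by
    apply antitone_cons
    · intro j; have := hσ j; omega
    · exact hanti
  have hcA : Antitone (cpl (m + 1) (Fin.cons (m + 1) σ)) := by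
    intro a b hab
    unfold cpl
    have := hA (Fin.rev_le_rev.2 hab)
    omega
  unfold hh
  rw [num_partition _ _ rfl hcA]
  unfold G
  rw [sum_lv, Nat.add_sub_cancel_left]
  -- the shifted row lengths in reversed order
  have hlv : lv (cpl (m + 1) (Fin.cons (m + 1) σ)) =
      fun k => (Fin.cons 2 (fun j => 2 * m + 4 - lv σ j) : Fin (m + 1 + 1) → ℕ) (Fin.rev k) := by
    have key : ∀ i : Fin (m + 1 + 1), lv (cpl (m + 1) (Fin.cons (m + 1) σ)) (Fin.rev i) =
        (Fin.cons 2 (fun j => 2 * m + 4 - lv σ j) : Fin (m + 1 + 1) → ℕ) i := by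
      intro i
      unfold lv cpl
      rw [Fin.rev_rev]
      refine Fin.cases ?_ (fun j => ?_) i
      · rw [Fin.cons_zero, Fin.cons_zero]
        simp
      · rw [Fin.cons_succ, Fin.cons_succ]
        simp only [Fin.val_succ, Fin.val_rev]
        have := hσ j
        omega
    funext k
    rw [← key (Fin.rev k), Fin.rev_rev]
  have hV : V (fun i => ((lv (cpl (m + 1) (Fin.cons (m + 1) σ)) i : ℕ) : ℚ)) =
      (∏ j, (2 * (m : ℚ) + 2 - lv σ j)) * V (fun j => (lv σ j : ℚ)) := by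
    rw [hlv]
    rw [V_rev (fun k => (((Fin.cons 2 (fun j => 2 * m + 4 - lv σ j) : Fin (m + 1 + 1) → ℕ) k : ℕ) : ℚ))]
    have e1 : (fun k => -(((Fin.cons 2 (fun j => 2 * m + 4 - lv σ j) :
        Fin (m + 1 + 1) → ℕ) k : ℕ) : ℚ)) =
        Fin.cons (-2) (fun j => (lv σ j : ℚ) - (2 * m + 4)) := by
      funext k
      refine Fin.cases ?_ (fun j => ?_) k
      · rw [Fin.cons_zero, Fin.cons_zero]
        push_cast
        ring
      · rw [Fin.cons_succ, Fin.cons_succ]
        have hle : lv σ j ≤ 2 * m + 4 := by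
          unfold lv
          have := hσ j
          simp only [Fin.val_rev]
          omega
        rw [Nat.cast_sub hle]
        push_cast
        ring
    rw [e1, V_cons, V_sub_const (fun j => (lv σ j : ℚ)) (2 * (m : ℚ) + 4)]
    congr 1
    apply prod_congr rfl
    intro j _
    ring
  have hP : ∏ i, ((lv (cpl (m + 1) (Fin.cons (m + 1) σ)) i).factorial : ℚ) =
      2 * ∏ j, ((2 * m + 4 - lv σ j).factorial : ℚ) := by
    rw [hlv]
    refine (Equiv.prod_comp (Fin.revPerm (n := m + 1 + 1)) (fun k => (((Fin.cons 2 (fun j => 2 * m + 4 -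
      lv σ j) : Fin (m + 1 + 1) → ℕ) k).factorial : ℚ))).trans ?_
    rw [Fin.prod_univ_succ]
    simp only [Fin.cons_zero, Fin.cons_succ]
    norm_num [Nat.factorial]
  have hS : ∑ i, cpl (m + 1) (Fin.cons (m + 1) σ) i = 2 + ∑ j, (m + 3 - σ j) := by
    unfold cpl
    refine (Equiv.sum_comp (Fin.revPerm (n := m + 1 + 1)) (fun k => m + 1 + 2 -
      (Fin.cons (m + 1) σ : Fin (m + 1 + 1) → ℕ) k)).trans ?_
    rw [Fin.sum_univ_succ]
    simp only [Fin.cons_zero, Fin.cons_succ]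
    congr 1
    omega
  rw [hV, hP, hS]

end Pool.Agent.Helper2SYT
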