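import Pool.Agent.Helper2SYT.Kraw

set_option autoImplicit false
set_option linter.unusedSectionVars false

/-!
# An average over the Krawtchouk ensemble
-/

namespace Pool.Agent.Helper2SYT

open Finset Function Matrix

/-- Cauchy-Binet with ordered tuples. -/
theorem cauchy_binet {m n : ℕ} (P : Matrix (Fin m) (Fin n) ℝ)
    (Q : Matrix (Fin n) (Fin m) ℝ) :
    (m.factorial : ℝ) * (P * Q).det =
      ∑ a : Fin m → Fin n, (P.submatrix id a).det * (Q.submatrix a id).det := by
  have h0 : (P * Q).det = ∑ a : Fin m → Fin n, (P.submatrix id a).det * ∏ i, Q (a i) i := by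
    rw [det_apply']
    have h1 : ∀ σ : Equiv.Perm (Fin m), ∏ i, (P * Q) (σ i) i =
        ∑ a : Fin m → Fin n, (∏ i, P (σ i) (a i)) * ∏ i, Q (a i) i := by
      intro σ
      simp only [Matrix.mul_apply]
      rw [Finset.prod_univ_sum, Fintype.piFinset_univ]
      apply Finset.sum_congr rfl
      intro a _
      rw [Finset.prod_mul_distrib]
    simp only [h1, Finset.mul_sum]
    rw [Finset.sum_comm]
    apply Finset.sum_congr rfl
    intro a _
    rw [det_apply', Finset.sum_mul]
    apply Finset.sum_congr rfl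
    intro σ _
    simp only [submatrix_apply, id]
    ring
  have h1 : ∀ τ : Equiv.Perm (Fin m), (P * Q).det =
      ∑ a : Fin m → Fin n, (P.submatrix id a).det *
        (((Equiv.Perm.sign τ : ℤ) : ℝ) * ∏ i, Q (a (τ i)) i) := by
    intro τ
    rw [h0, ← Equiv.sum_comp (Equiv.arrowCongr τ.symm (Equiv.refl (Fin n)))]
    apply Finset.sum_congr rfl
    intro a _
    have e : (Equiv.arrowCongr τ.symm (Equiv.refl (Fin n))) a = a ∘ τ := by
      ext i
      simp [Equiv.arrowCongr]
    rw [e]
    have e2 : P.submatrix id (a ∘ τ) = (P.submatrix id a).submatrix id τ := rfl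
    rw [e2, Matrix.det_permute']
    simp only [Function.comp_apply]
    ring
  calc (m.factorial : ℝ) * (P * Q).det = ∑ τ : Equiv.Perm (Fin m), (P * Q).det := by
        rw [Finset.sum_const, Finset.card_univ, Fintype.card_perm, Fintype.card_fin, nsmul_eq_mul]
    _ = ∑ τ : Equiv.Perm (Fin m), ∑ a : Fin m → Fin n, (P.submatrix id a).det *
      (((Equiv.Perm.sign τ : ℤ) : ℝ) * ∏ i, Q (a (τ i)) i) :=
        Finset.sum_congr rfl (fun τ _ => h1 τ)
    _ = _ := by
        rw [Finset.sum_comm]
        apply Finset.sum_congr rfl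
        intro a _
        rw [← Finset.mul_sum, det_apply' (Q.submatrix a id)]
        rfl

/-- the Beta integral -/
theorem beta : ∀ (b a : ℕ), ∫ s in (0 : ℝ)..1, s ^ a * (1 - s) ^ b =
    (a.factorial : ℝ) * (b.factorial : ℝ) / ((a + b + 1).factorial : ℝ) := by
  intro b
  induction b with
  | zero =>
    intro a
    simp only [pow_zero, mul_one, Nat.factorial_zero, Nat.cast_one, add_zero, integral_pow]
    rw [Nat.factorial_succ]
    have := Nat.factorial_ne_zero a
    push_cast
    field_simp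
    simp
  | succ b ih =>
    intro a
    have h1 : ∀ s : ℝ, s ^ a * (1 - s) ^ (b + 1) = s ^ a * (1 - s) ^ b - s ^ (a + 1) * (1 - s) ^ b := by
      intro s; ring
    simp only [h1]
    rw [intervalIntegral.integral_sub, ih, ih]
    · have e1 : a + 1 + b + 1 = a + b + 1 + 1 := by ring
      have e2 : a + (b + 1) + 1 = a + b + 1 + 1 := by ring
      rw [e1, e2, Nat.factorial_succ (a + b + 1), Nat.factorial_succ b, Nat.factorial_succ a]
      have := Nat.factorial_ne_zero (a + b + 1)
      push_cast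
      field_simp
      ring
    · apply Continuous.intervalIntegrable; fun_prop
    · apply Continuous.intervalIntegrable; fun_prop

/-- the inner integral -/
noncomputable def JJ (m : ℕ) (p : ℝ) : ℝ :=
  ∑ k ∈ range (m + 1), (m.choose k : ℝ) * p ^ (m - k) * (1 - p) ^ k *
    (((k + 3).factorial : ℝ) * (m.factorial : ℝ) / ((m + k + 4).factorial : ℝ))

theorem stieltjes (m : ℕ) (p : ℝ) :
    ∑ x ∈ range (2 * m + 1), ((2 * m).choose x : ℝ) * p ^ x * (1 - p) ^ (2 * m - x) *
      kk (2 * m) p m x / (2 * m + 4 - x) =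
    ((2 * m).choose m : ℝ) * (p * (1 - p)) ^ m * JJ m p := by
  have h1 : ∀ x ∈ range (2 * m + 1), ((2 * m).choose x : ℝ) * p ^ x * (1 - p) ^ (2 * m - x) *
      kk (2 * m) p m x / (2 * m + 4 - x) = ∫ s in (0 : ℝ)..1,
      ((2 * m).choose x : ℝ) * p ^ x * (1 - p) ^ (2 * m - x) *
      kk (2 * m) p m x * s ^ (2 * m - x + 3) := by
    intro x hx
    rw [mem_range] at hx
    rw [intervalIntegral.integral_const_mul, integral_pow]
    have e : (((2 * m - x + 3 : ℕ) : ℝ) + 1) = 2 * m + 4 - x := by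
      push_cast [Nat.cast_sub (show x ≤ 2 * m by omega)]
      ring
    rw [e]
    simp
    ring
  rw [sum_congr rfl h1, ← intervalIntegral.integral_finsetSum]
  · have h2 : ∀ s : ℝ, ∑ x ∈ range (2 * m + 1), ((2 * m).choose x : ℝ) * p ^ x *
        (1 - p) ^ (2 * m - x) * kk (2 * m) p m x * s ^ (2 * m - x + 3) =
        ∑ k ∈ range (m + 1), (((2 * m).choose m : ℝ) * (p * (1 - p)) ^ m *
          ((m.choose k : ℝ) * p ^ (m - k) * (1 - p) ^ k)) * (s ^ (k + 3) * (1 - s) ^ m) := by
      intro s
      have h3 := gen (R := ℝ) (2 * m) m (by omega) p 1 ((1 - p) * s)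
      have h4 : ∑ x ∈ range (2 * m + 1), ((2 * m).choose x : ℝ) * p ^ x *
          (1 - p) ^ (2 * m - x) * kk (2 * m) p m x * s ^ (2 * m - x + 3) =
          s ^ 3 * ∑ x ∈ range (2 * m + 1), ((2 * m).choose x : ℝ) * (p * 1) ^ x *
            ((1 - p) * s) ^ (2 * m - x) * kk (2 * m) p m x := by
        rw [mul_sum]
        apply sum_congr rfl
        intro x _
        rw [mul_one, mul_pow, pow_add]
        ring
      rw [h4, h3]
      have e1 : 2 * m - m = m := by omega
      have e2 : p * 1 + (1 - p) * s = (1 - p) * s + p := by ring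
      have e3 : (1 : ℝ) - p * 1 - (1 - p) * s = (1 - p) * (1 - s) := by ring
      rw [e1, e2, e3, add_pow, mul_pow, mul_sum, sum_mul, mul_sum]
      apply sum_congr rfl
      intro k _
      rw [mul_pow, mul_pow]
      ring
    simp only [h2]
    rw [intervalIntegral.integral_finsetSum]
    · unfold JJ
      rw [mul_sum]
      apply sum_congr rfl
      intro k _
      rw [intervalIntegral.integral_const_mul, beta]
      have e : k + 3 + m + 1 = m + k + 4 := by ring
      rw [e]
      ring
    · intro k _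
      apply Continuous.intervalIntegrable; fun_prop
  · intro k _
    apply Continuous.intervalIntegrable; fun_prop

/-- monic polynomials with the values `i! k_i(x)` -/
noncomputable def aP (L : ℕ) (p : ℝ) (i : ℕ) : Polynomial ℝ :=
  ∑ c ∈ range (i + 1), Polynomial.C ((i.factorial : ℝ) * ((L - c).choose (i - c) : ℝ) *
    (-p) ^ (i - c) / (c.factorial : ℝ)) * descPochhammer ℝ c

theorem aP_split (L : ℕ) (p : ℝ) (i : ℕ) : ∃ q : Polynomial ℝ, q.degree < (i : WithBot ℕ) ∧
    aP L p i = descPochhammer ℝ i + q := by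
  refine ⟨∑ c ∈ range i, Polynomial.C ((i.factorial : ℝ) * ((L - c).choose (i - c) : ℝ) *
    (-p) ^ (i - c) / (c.factorial : ℝ)) * descPochhammer ℝ c, ?_, ?_⟩
  · rw [← Polynomial.mem_degreeLT]
    apply Submodule.sum_mem
    intro c hc
    rw [Polynomial.mem_degreeLT]
    rw [mem_range] at hc
    apply lt_of_le_of_lt (Polynomial.degree_le_natDegree)
    have h := Polynomial.natDegree_C_mul_le ((i.factorial : ℝ) * ((L - c).choose (i - c) : ℝ) *
      (-p) ^ (i - c) / (c.factorial : ℝ)) (descPochhammer ℝ c)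
    rw [descPochhammer_natDegree] at h
    exact_mod_cast lt_of_le_of_lt h hc
  · unfold aP
    rw [sum_range_succ, add_comm]
    congr 1
    have : (i.factorial : ℝ) ≠ 0 := by exact_mod_cast i.factorial_ne_zero
    simp [this]

theorem degree_descP (i : ℕ) : (descPochhammer ℝ i).degree = (i : WithBot ℕ) := by
  rw [Polynomial.degree_eq_natDegree (monic_descPochhammer ℝ i).ne_zero, descPochhammer_natDegree]

theorem aP_monic (L : ℕ) (p : ℝ) (i : ℕ) : (aP L p i).Monic := by
  obtain ⟨q, hq, h⟩ := aP_split L p i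
  rw [h]
  apply (monic_descPochhammer ℝ i).add_of_left
  rw [degree_descP]; exact hq

theorem aP_natDegree (L : ℕ) (p : ℝ) (i : ℕ) : (aP L p i).natDegree = i := by
  obtain ⟨q, hq, h⟩ := aP_split L p i
  rw [h, Polynomial.natDegree_add_eq_left_of_degree_lt, descPochhammer_natDegree]
  rw [degree_descP]; exact hq

theorem aP_eval (L : ℕ) (p : ℝ) (i x : ℕ) :
    (aP L p i).eval (x : ℝ) = (i.factorial : ℝ) * kk L p i x := by
  unfold aP kk
  rw [Polynomial.eval_finsetSum, mul_sum]
  apply sum_congr rfl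
  intro c _
  rw [Polynomial.eval_mul, Polynomial.eval_C, descPochhammer_eval_eq_descFactorial,
    Nat.descFactorial_eq_factorial_mul_choose]
  have : (c.factorial : ℝ) ≠ 0 := by exact_mod_cast c.factorial_ne_zero
  push_cast
  field_simp

/-- the monic polynomials `1`, `(x - (2 m + 4)) (x)_j` -/
noncomputable def bP (m : ℕ) : ℕ → Polynomial ℝ
  | 0 => 1
  | j + 1 => (Polynomial.X - Polynomial.C (2 * m + 4 : ℝ)) * descPochhammer ℝ j

theorem bP_monic (m j : ℕ) : (bP m j).Monic := by
  cases j with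
  | zero => exact Polynomial.monic_one
  | succ j => exact (Polynomial.monic_X_sub_C _).mul (monic_descPochhammer ℝ j)

theorem bP_natDegree (m j : ℕ) : (bP m j).natDegree = j := by
  cases j with
  | zero => simp [bP]
  | succ j =>
    unfold bP
    rw [(Polynomial.monic_X_sub_C _).natDegree_mul (monic_descPochhammer ℝ j),
      Polynomial.natDegree_X_sub_C, descPochhammer_natDegree]
    ring

/-- the weight -/
noncomputable def ww (m : ℕ) (p : ℝ) (x : ℕ) : ℝ :=
  ((2 * m).choose x : ℝ) * p ^ x * (1 - p) ^ (2 * m - x)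

/-- first factor -/
noncomputable def PP (m : ℕ) (p : ℝ) : Matrix (Fin (m + 1)) (Fin (2 * m + 1)) ℝ :=
  Matrix.of fun i x => (ww m p x / (2 * m + 4 - (x : ℕ))) * (aP (2 * m) p i).eval ((x : ℕ) : ℝ)

/-- second factor -/
noncomputable def RR (m : ℕ) : Matrix (Fin (2 * m + 1)) (Fin (m + 1)) ℝ :=
  Matrix.of fun x j => (bP m j).eval ((x : ℕ) : ℝ)

theorem det_PP (m : ℕ) (p : ℝ) (a : Fin (m + 1) → Fin (2 * m + 1)) :
    ((PP m p).submatrix id a).det = (∏ k, (ww m p (a k) / (2 * m + 4 - (a k : ℕ)))) *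
      (vandermonde fun k => ((a k : ℕ) : ℝ)).det := by
  rw [Matrix.det_eval_matrixOfPolynomials_eq_det_vandermonde _
    (fun i : Fin (m + 1) => aP (2 * m) p i) (fun i => aP_natDegree _ _ _)
    (fun i => aP_monic _ _ _), ← Matrix.det_mul_column, ← Matrix.det_transpose]
  rfl

theorem det_RR (m : ℕ) (a : Fin (m + 1) → Fin (2 * m + 1)) :
    ((RR m).submatrix a id).det = (vandermonde fun k => ((a k : ℕ) : ℝ)).det := by
  rw [Matrix.det_eval_matrixOfPolynomials_eq_det_vandermonde _
    (fun i : Fin (m + 1) => bP m i) (fun i => bP_natDegree _ _)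
    (fun i => bP_monic _ _)]
  rfl

theorem mul_apply_zero (m : ℕ) (p : ℝ) (i : Fin (m + 1)) :
    (PP m p * RR m) i 0 = ((i : ℕ).factorial : ℝ) * ∑ x ∈ range (2 * m + 1),
      ww m p x * kk (2 * m) p i x / (2 * m + 4 - x) := by
  rw [Matrix.mul_apply, mul_sum, ← Fin.sum_univ_eq_sum_range
    (fun x => ((i : ℕ).factorial : ℝ) * (ww m p x * kk (2 * m) p i x / (2 * m + 4 - x)))]
  apply sum_congr rfl
  intro x _
  unfold PP RR
  simp only [Matrix.of_apply, aP_eval, Fin.val_zero, bP, Polynomial.eval_one]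
  ring

theorem mul_apply_succ (m : ℕ) (p : ℝ) (i : Fin (m + 1)) (j : Fin m) :
    (PP m p * RR m) i j.succ = if (j : ℕ) < i then 0 else
      - (((i : ℕ).factorial : ℝ) * ((j : ℕ).factorial : ℝ) * (((2 * m).choose i : ℝ) *
        (p * (1 - p)) ^ (i : ℕ) * (((2 * m - i).choose (j - i) : ℕ) : ℝ) * p ^ ((j : ℕ) - i))) := by
  have h := moment (2 * m) i j (by omega) p
  have h1 : (PP m p * RR m) i j.succ = - (((i : ℕ).factorial : ℝ) * ((j : ℕ).factorial : ℝ) *
      ∑ x ∈ range (2 * m + 1), ((2 * m).choose x : ℝ) * p ^ x * (1 - p) ^ (2 * m - x) *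
        kk (2 * m) p i x * (x.choose j : ℝ)) := by
    rw [Matrix.mul_apply, mul_sum, ← sum_neg_distrib, ← Fin.sum_univ_eq_sum_range
      (fun x => -(((i : ℕ).factorial : ℝ) * ((j : ℕ).factorial : ℝ) *
        (((2 * m).choose x : ℝ) * p ^ x * (1 - p) ^ (2 * m - x) *
        kk (2 * m) p i x * (x.choose j : ℝ))))]
    apply sum_congr rfl
    intro x _
    unfold PP RR
    simp only [Matrix.of_apply, aP_eval, Fin.val_succ, bP, Polynomial.eval_mul,
      Polynomial.eval_sub, Polynomial.eval_X, Polynomial.eval_C,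
      descPochhammer_eval_eq_descFactorial, Nat.descFactorial_eq_factorial_mul_choose]
    have hx : (2 * (m : ℝ) + 4 - ((x : ℕ) : ℝ)) ≠ 0 := by
      have : ((x : ℕ) : ℝ) ≤ 2 * m := by
        have := x.2
        have h' : (x : ℕ) ≤ 2 * m := by omega
        exact_mod_cast h'
      linarith
    unfold ww
    push_cast
    field_simp
    ring
  rw [h1, h]
  split_ifs <;> ring

/-- the diagonal -/
noncomputable def hd (m : ℕ) (p : ℝ) (i : ℕ) : ℝ :=
  (i.factorial : ℝ) ^ 2 * ((2 * m).choose i : ℝ) * (p * (1 - p)) ^ i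

theorem det_mul (m : ℕ) (p : ℝ) :
    (PP m p * RR m).det = (m.factorial : ℝ) * (((2 * m).choose m : ℝ) * (p * (1 - p)) ^ m * JJ m p) *
      ∏ i : Fin m, hd m p i := by
  rw [Matrix.det_succ_row _ (Fin.last m)]
  rw [Fin.sum_univ_succ]
  have h0 : ∑ j : Fin m, (-1 : ℝ) ^ ((Fin.last m : ℕ) + (j.succ : ℕ)) *
      (PP m p * RR m) (Fin.last m) j.succ *
      ((PP m p * RR m).submatrix (Fin.last m).succAbove j.succ.succAbove).det = 0 := by
    apply sum_eq_zero
    intro j _
    rw [mul_apply_succ, if_pos (by rw [Fin.val_last]; exact j.2)]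
    ring
  rw [h0, add_zero, mul_apply_zero]
  have h1 : ((PP m p * RR m).submatrix (Fin.last m).succAbove (Fin.succAbove 0)).det =
      (-1) ^ m * ∏ i : Fin m, hd m p i := by
    rw [Matrix.det_of_isUpperTriangular]
    · have h2 : ∀ i : Fin m, ((PP m p * RR m).submatrix (Fin.last m).succAbove (Fin.succAbove 0)) i i =
          (-1) * hd m p i := by
        intro i
        rw [Matrix.submatrix_apply, Fin.succAbove_last, Fin.succAbove_zero, mul_apply_succ,
          if_neg (by simp)]
        unfold hd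
        simp only [Fin.val_castSucc, Nat.sub_self, Nat.choose_zero_right, pow_zero]
        push_cast
        ring
      rw [Finset.prod_congr rfl (fun i _ => h2 i), prod_mul_distrib, prod_const, card_univ,
        Fintype.card_fin]
    · intro i j hij
      simp only [id] at hij
      rw [Matrix.submatrix_apply, Fin.succAbove_last, Fin.succAbove_zero, mul_apply_succ,
        if_pos (by simpa using hij)]
  rw [h1]
  have h3 := stieltjes m p
  have h4 : ∑ x ∈ range (2 * m + 1), ww m p x * kk (2 * m) p ((Fin.last m : Fin (m + 1)) : ℕ) x /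
      (2 * m + 4 - x) = ((2 * m).choose m : ℝ) * (p * (1 - p)) ^ m * JJ m p := by
    rw [← h3]
    rfl
  rw [h4]
  simp only [Fin.val_last, Fin.val_zero, add_zero]
  have h5 : (-1 : ℝ) ^ m * (-1) ^ m = 1 := by
    rw [← mul_pow]; simp
  calc (-1 : ℝ) ^ m * ((m.factorial : ℝ) * (((2 * m).choose m : ℝ) * (p * (1 - p)) ^ m * JJ m p)) *
        ((-1) ^ m * ∏ i : Fin m, hd m p i)
      = ((-1 : ℝ) ^ m * (-1) ^ m) * ((m.factorial : ℝ) * (((2 * m).choose m : ℝ) *
        (p * (1 - p)) ^ m * JJ m p)) * ∏ i : Fin m, hd m p i := by ring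
    _ = _ := by rw [h5]; ring

/-- the ensemble average -/
theorem ensemble (m : ℕ) (p : ℝ) :
    ∑ a : Fin (m + 1) → Fin (2 * m + 1), (∏ k, (ww m p (a k) / (2 * m + 4 - (a k : ℕ)))) *
      (vandermonde fun k => ((a k : ℕ) : ℝ)).det ^ 2 =
    ((m + 1).factorial : ℝ) * ((m.factorial : ℝ) * (((2 * m).choose m : ℝ) *
      (p * (1 - p)) ^ m * JJ m p) * ∏ i : Fin m, hd m p i) := by
  rw [← det_mul, cauchy_binet]
  apply sum_congr rfl
  intro a _
  rw [det_PP, det_RR]
  ring

end Pool.Agent.Helper2SYT
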