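import Pool.Agent.Helper2SYT.Van

set_option autoImplicit false
set_option linter.unusedSectionVars false

/-!
# Krawtchouk polynomials and an ensemble average
-/

namespace Pool.Agent.Helper2SYT

open Finset Function Matrix

/-- Krawtchouk polynomials -/
def kk {R : Type*} [CommRing R] (L : ℕ) (P : R) (i x : ℕ) : R :=
  ∑ c ∈ range (i + 1), (x.choose c : R) * ((L - c).choose (i - c) : R) * (-P) ^ (i - c)

theorem inner_sum {R : Type*} [CommRing R] (c e : ℕ) (A Y : R) :
    ∑ x ∈ range (c + e + 1), ((c + e).choose x : R) * (x.choose c : R) * A ^ x * Y ^ (c + e - x) =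
      ((c + e).choose c : R) * A ^ c * (A + Y) ^ e := by
  rw [show c + e + 1 = c + (e + 1) by ring, sum_range_add]
  have h0 : ∑ x ∈ range c, ((c + e).choose x : R) * (x.choose c : R) * A ^ x * Y ^ (c + e - x) = 0 := by
    apply sum_eq_zero
    intro x hx
    rw [Nat.choose_eq_zero_of_lt (mem_range.1 hx)]
    simp
  rw [h0, zero_add, add_pow, mul_sum]
  apply sum_congr rfl
  intro x hx
  rw [mem_range] at hx
  have h1 : (c + e).choose (c + x) * (c + x).choose c = (c + e).choose c * e.choose x := by
    have h := Nat.choose_mul (n := c + e) (k := c + x) (s := c) (by omega)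
    rw [h]
    congr 2 <;> omega
  have h2 : ((c + e).choose (c + x) : R) * ((c + x).choose c : R) =
      ((c + e).choose c : R) * (e.choose x : R) := by
    have := congrArg (Nat.cast : ℕ → R) h1
    push_cast at this
    exact this
  have h3 : c + e - (c + x) = e - x := by omega
  rw [h2, h3, pow_add]
  ring

/-- the generating function of the Krawtchouk polynomials -/
theorem gen {R : Type*} [CommRing R] (L i : ℕ) (hi : i ≤ L) (P T Y : R) :
    ∑ x ∈ range (L + 1), (L.choose x : R) * (P * T) ^ x * Y ^ (L - x) * kk L P i x =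
      (L.choose i : R) * P ^ i * (P * T + Y) ^ (L - i) * (T - P * T - Y) ^ i := by
  unfold kk
  have h1 : ∀ x ∈ range (L + 1), (L.choose x : R) * (P * T) ^ x * Y ^ (L - x) *
      ∑ c ∈ range (i + 1), (x.choose c : R) * ((L - c).choose (i - c) : R) * (-P) ^ (i - c) =
      ∑ c ∈ range (i + 1), ((L - c).choose (i - c) : R) * (-P) ^ (i - c) *
        ((L.choose x : R) * (x.choose c : R) * (P * T) ^ x * Y ^ (L - x)) := by
    intro x _
    rw [mul_sum]
    apply sum_congr rfl
    intro c _
    ring
  rw [sum_congr rfl h1, sum_comm]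
  have h2 : ∀ c ∈ range (i + 1), ∑ x ∈ range (L + 1), ((L - c).choose (i - c) : R) *
      (-P) ^ (i - c) * ((L.choose x : R) * (x.choose c : R) * (P * T) ^ x * Y ^ (L - x)) =
      (L.choose i : R) * (P * T + Y) ^ (L - i) * ((P * T) ^ c * (-P * (P * T + Y)) ^ (i - c) *
        (i.choose c : R)) := by
    intro c hc
    rw [mem_range] at hc
    rw [← mul_sum]
    have h3 := inner_sum (R := R) c (L - c) (P * T) Y
    have h4 : c + (L - c) = L := by omega
    rw [h4] at h3
    rw [h3]
    have h5 : L.choose c * (L - c).choose (i - c) = L.choose i * i.choose c := by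
      rw [Nat.choose_mul (n := L) (k := i) (s := c) (by omega)]
    have h6 : (L.choose c : R) * ((L - c).choose (i - c) : R) =
        (L.choose i : R) * (i.choose c : R) := by
      have := congrArg (Nat.cast : ℕ → R) h5
      push_cast at this
      exact this
    have h7 : L - c = (L - i) + (i - c) := by omega
    calc ((L - c).choose (i - c) : R) * (-P) ^ (i - c) *
          ((L.choose c : R) * (P * T) ^ c * (P * T + Y) ^ (L - c))
        = ((L.choose c : R) * ((L - c).choose (i - c) : R)) * (-P) ^ (i - c) *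
          (P * T) ^ c * (P * T + Y) ^ (L - c) := by ring
      _ = ((L.choose i : R) * (i.choose c : R)) * (-P) ^ (i - c) *
          (P * T) ^ c * (P * T + Y) ^ ((L - i) + (i - c)) := by rw [h6, ← h7]
      _ = _ := by rw [pow_add, mul_pow (-P) (P * T + Y)]; ring
  rw [sum_congr rfl h2, ← mul_sum, ← add_pow]
  have h8 : P * T + -P * (P * T + Y) = P * (T - P * T - Y) := by ring
  rw [h8, mul_pow]
  ring

/-- the moments against binomial coefficients -/
theorem moment (L i j : ℕ) (hi : i ≤ L) (p : ℝ) :
    ∑ x ∈ range (L + 1), (L.choose x : ℝ) * p ^ x * (1 - p) ^ (L - x) * kk L p i x *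
      (x.choose j : ℝ) = if j < i then 0 else
        (L.choose i : ℝ) * (p * (1 - p)) ^ i * (((L - i).choose (j - i) : ℕ) : ℝ) * p ^ (j - i) := by
  have h := gen (R := Polynomial ℝ) L i hi (Polynomial.C p) (1 + Polynomial.X)
    (Polynomial.C (1 - p))
  have h1 := congrArg (fun f : Polynomial ℝ => f.coeff j) h
  have hk : ∀ x, kk L (Polynomial.C p) i x = Polynomial.C (kk L p i x) := by
    intro x
    unfold kk
    simp only [map_sum, map_mul, map_pow, map_neg, map_natCast]
  have e1 : (Polynomial.C p * (1 + Polynomial.X) + Polynomial.C (1 - p) : Polynomial ℝ) =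
      1 + Polynomial.C p * Polynomial.X := by
    rw [map_sub, map_one]; ring
  have e2 : ((1 + Polynomial.X) - Polynomial.C p * (1 + Polynomial.X) - Polynomial.C (1 - p) :
      Polynomial ℝ) = Polynomial.C (1 - p) * Polynomial.X := by
    rw [map_sub, map_one]; ring
  rw [e1, e2] at h1
  rw [Polynomial.finsetSum_coeff] at h1
  have h2 : ∀ x ∈ range (L + 1), ((L.choose x : Polynomial ℝ) *
      (Polynomial.C p * (1 + Polynomial.X)) ^ x * Polynomial.C (1 - p) ^ (L - x) *
      kk L (Polynomial.C p) i x).coeff j =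
      (L.choose x : ℝ) * p ^ x * (1 - p) ^ (L - x) * kk L p i x * (x.choose j : ℝ) := by
    intro x _
    rw [hk, mul_pow]
    have e3 : ((L.choose x : Polynomial ℝ) * (Polynomial.C p ^ x * (1 + Polynomial.X) ^ x) *
        Polynomial.C (1 - p) ^ (L - x) * Polynomial.C (kk L p i x)) =
        Polynomial.C ((L.choose x : ℝ) * p ^ x * (1 - p) ^ (L - x) * kk L p i x) *
          (1 + Polynomial.X) ^ x := by
      simp only [map_mul, map_pow, map_natCast]
      ring
    rw [e3, Polynomial.coeff_C_mul, Polynomial.coeff_one_add_X_pow]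
  rw [sum_congr rfl h2] at h1
  rw [h1]
  have e4 : ((L.choose i : Polynomial ℝ) * Polynomial.C p ^ i *
      (1 + Polynomial.C p * Polynomial.X) ^ (L - i) * (Polynomial.C (1 - p) * Polynomial.X) ^ i) =
      Polynomial.C ((L.choose i : ℝ) * (p * (1 - p)) ^ i) *
        ((1 + Polynomial.C p * Polynomial.X) ^ (L - i) * Polynomial.X ^ i) := by
    simp only [map_mul, map_pow, map_natCast, mul_pow]
    ring
  rw [e4, Polynomial.coeff_C_mul, Polynomial.coeff_mul_X_pow']
  split_ifs with h3 h4 h4
  · omega
  · have e5 : ((1 : Polynomial ℝ) + Polynomial.C p * Polynomial.X) ^ (L - i) =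
        ((1 + Polynomial.X : Polynomial ℝ) ^ (L - i)).comp (Polynomial.C p * Polynomial.X) := by
      simp
    rw [e5, Polynomial.comp_C_mul_X_coeff, Polynomial.coeff_one_add_X_pow]
    ring
  · simp
  · omega

end Pool.Agent.Helper2SYT
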