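import Mathlib

set_option autoImplicit false

/-!
# A hypergeometric sum
-/

namespace Pool.Agent.Helper2SYT

open Finset

/-- the summand -/
def tt (m k : ℕ) : ℚ :=
  (m.choose k : ℚ) * ((3 * m + 1 - k).factorial : ℚ) * ((3 * m + 5 + k).factorial : ℚ) *
    ((k + 3).factorial : ℚ) / ((m + k + 4).factorial : ℚ)

/-- the certificate -/
def QQ (m K : ℚ) : ℚ :=
  (-14184 - 71916 * m - 299445 / 2 * m ^ 2 - 667833 / 4 * m ^ 3 - 433197 / 4 * m ^ 4 -
      164187 / 4 * m ^ 5 - 33777 / 4 * m ^ 6 - 729 * m ^ 7) +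
    (6354 + 44703 / 2 * m + 32430 * m ^ 2 + 100209 / 4 * m ^ 3 + 10908 * m ^ 4 +
      10125 / 4 * m ^ 5 + 243 * m ^ 6) * K +
    (150 + 71 / 4 * m - 2365 / 4 * m ^ 2 - 2853 / 4 * m ^ 3 - 1179 / 4 * m ^ 4 -
      81 / 2 * m ^ 5) * K ^ 2 +
    (255 / 2 + 1373 / 4 * m + 314 * m ^ 2 + 447 / 4 * m ^ 3 + 27 / 2 * m ^ 4) * K ^ 3 +
    (-6 - 7 / 2 * m + 4 * m ^ 2 + 3 / 2 * m ^ 3) * K ^ 4 +
    (-3 / 2 - 2 * m - 1 / 2 * m ^ 2) * K ^ 5

/-- the antidifference -/
def GG (m k : ℕ) : ℚ :=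
  (k : ℚ) * QQ m k / (m + 1) * ((m + 1).choose k : ℚ) * ((3 * m + 1 - k).factorial : ℚ) *
    ((3 * m + 5 + k).factorial : ℚ) * ((k + 3).factorial : ℚ) / ((m + k + 4).factorial : ℚ)

theorem fact_ne (n : ℕ) : (n.factorial : ℚ) ≠ 0 := by exact_mod_cast n.factorial_ne_zero

theorem step_lt (k j : ℕ) :
    ((k + j : ℕ) + 3 : ℚ) * (2 * (k + j : ℕ) + 5) * tt (k + j + 1) k -
      9 * ((k + j : ℕ) + 1) * ((k + j : ℕ) + 2) * (3 * (k + j : ℕ) + 8) * (3 * (k + j : ℕ) + 7) *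
        (3 * (k + j : ℕ) + 5) * (2 * (k + j : ℕ) + 3) * (3 * (k + j : ℕ) + 4) * tt (k + j) k =
      GG (k + j) (k + 1) - GG (k + j) k := by
  unfold tt GG
  have c1 : (((k + j + 1).choose k : ℕ) : ℚ) = ((k + j).choose k : ℚ) * (k + j + 1) / (j + 1) := by
    have h := Nat.add_one_mul_choose_eq (k + j) j
    have h2 : (k + j).choose j = (k + j).choose k := by
      rw [← Nat.choose_symm_of_eq_add (show k + j = j + k by ring)]
    have h3 : (k + j + 1).choose (j + 1) = (k + j + 1).choose k := by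
      rw [← Nat.choose_symm_of_eq_add (show k + j + 1 = (j + 1) + k by ring)]
    rw [h2, h3] at h
    have h' : ((k : ℚ) + j + 1) * ((k + j).choose k : ℚ) = ((k + j + 1).choose k : ℚ) * (j + 1) := by
      exact_mod_cast h
    rw [eq_div_iff (by positivity)]
    linarith
  have c2 : (((k + j + 1).choose (k + 1) : ℕ) : ℚ) =
      ((k + j).choose k : ℚ) * (k + j + 1) / (k + 1) := by
    have h := Nat.add_one_mul_choose_eq (k + j) k
    have h' : ((k : ℚ) + j + 1) * ((k + j).choose k : ℚ) =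
        ((k + j + 1).choose (k + 1) : ℚ) * (k + 1) := by
      exact_mod_cast h
    rw [eq_div_iff (by positivity)]
    linarith
  rw [c1, c2]
  have e1 : 3 * (k + j + 1) + 1 - k = 2 * k + 3 * j + 4 := by omega
  have e2 : 3 * (k + j) + 1 - k = 2 * k + 3 * j + 1 := by omega
  have e3 : 3 * (k + j) + 1 - (k + 1) = 2 * k + 3 * j := by omega
  have e4 : 3 * (k + j + 1) + 5 + k = 4 * k + 3 * j + 5 + 1 + 1 + 1 := by omega
  have e5 : 3 * (k + j) + 5 + k = 4 * k + 3 * j + 5 := by omega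
  have e6 : 3 * (k + j) + 5 + (k + 1) = 4 * k + 3 * j + 5 + 1 := by omega
  have e7 : k + j + 1 + k + 4 = 2 * k + j + 4 + 1 := by omega
  have e8 : k + j + k + 4 = 2 * k + j + 4 := by omega
  have e9 : k + j + (k + 1) + 4 = 2 * k + j + 4 + 1 := by omega
  have e10 : k + 1 + 3 = k + 3 + 1 := by omega
  rw [e1, e2, e3, e4, e5, e6, e7, e8, e9, e10]
  simp only [Nat.factorial_succ (2 * k + 3 * j), Nat.factorial_succ (2 * k + 3 * j + 1),
    Nat.factorial_succ (2 * k + 3 * j + 1 + 1), Nat.factorial_succ (2 * k + 3 * j + 1 + 1 + 1),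
    Nat.factorial_succ (4 * k + 3 * j + 5), Nat.factorial_succ (4 * k + 3 * j + 5 + 1),
    Nat.factorial_succ (4 * k + 3 * j + 5 + 1 + 1), Nat.factorial_succ (2 * k + j + 4),
    Nat.factorial_succ (k + 3)]
  have n1 := fact_ne (2 * k + j + 4)
  have n2 : (j : ℚ) + 1 ≠ 0 := by positivity
  have n3 : (k : ℚ) + 1 ≠ 0 := by positivity
  have n4 : (k : ℚ) + j + 1 ≠ 0 := by positivity
  have n5 : (2 * (k : ℚ) + j + 4 + 1) ≠ 0 := by positivity
  unfold QQ
  push_cast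
  field_simp
  ring

theorem step_end (m : ℕ) :
    ((m : ℚ) + 3) * (2 * m + 5) * tt (m + 1) (m + 1) = - GG m (m + 1) := by
  unfold tt GG
  have e1 : 3 * (m + 1) + 1 - (m + 1) = 2 * m + 3 := by omega
  have e2 : 3 * m + 1 - (m + 1) = 2 * m := by omega
  have e3 : 3 * (m + 1) + 5 + (m + 1) = 4 * m + 6 + 1 + 1 + 1 := by omega
  have e4 : 3 * m + 5 + (m + 1) = 4 * m + 6 := by omega
  have e5 : m + 1 + (m + 1) + 4 = 2 * m + 5 + 1 := by omega
  have e6 : m + (m + 1) + 4 = 2 * m + 5 := by omega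
  rw [e1, e2, e3, e4, e5, e6, Nat.choose_self]
  rw [Nat.factorial_succ (4 * m + 6 + 1 + 1), Nat.factorial_succ (4 * m + 6 + 1),
    Nat.factorial_succ (4 * m + 6), Nat.factorial_succ (2 * m + 5)]
  have f1 : (2 * m + 3).factorial = (2 * m + 3) * ((2 * m + 2) * ((2 * m + 1) *
      (2 * m).factorial)) := by
    rw [Nat.factorial_succ (2 * m + 2), Nat.factorial_succ (2 * m + 1),
      Nat.factorial_succ (2 * m)]
  rw [f1]
  have n1 := fact_ne (2 * m + 5)
  have n2 : (m : ℚ) + 1 ≠ 0 := by positivity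
  have n5 : (2 * (m : ℚ) + 5 + 1) ≠ 0 := by positivity
  unfold QQ
  push_cast
  field_simp
  ring

/-- the sum -/
def SS (m : ℕ) : ℚ := ∑ k ∈ range (m + 1), tt m k

theorem GG_zero (m : ℕ) : GG m 0 = 0 := by unfold GG; simp

theorem SS_rec (m : ℕ) :
    ((m : ℚ) + 3) * (2 * m + 5) * SS (m + 1) =
      9 * ((m : ℚ) + 1) * (m + 2) * (3 * m + 8) * (3 * m + 7) * (3 * m + 5) * (2 * m + 3) *
        (3 * m + 4) * SS m := by
  unfold SS
  have h1 : ∑ k ∈ range (m + 1), (((m : ℚ) + 3) * (2 * m + 5) * tt (m + 1) k -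
      9 * ((m : ℚ) + 1) * (m + 2) * (3 * m + 8) * (3 * m + 7) * (3 * m + 5) * (2 * m + 3) *
        (3 * m + 4) * tt m k) = GG m (m + 1) - GG m 0 := by
    rw [← sum_range_sub]
    apply sum_congr rfl
    intro k hk
    obtain ⟨j, rfl⟩ : ∃ j, m = k + j := ⟨m - k, by rw [mem_range] at hk; omega⟩
    exact step_lt k j
  rw [sum_sub_distrib, ← mul_sum, ← mul_sum, GG_zero, sub_zero] at h1
  rw [sum_range_succ _ (m + 1), mul_add, step_end]
  linarith

theorem SS_eq : ∀ m : ℕ, SS m = 3 * ((3 * m + 5).factorial : ℚ) ^ 2 * ((6 * m + 7).factorial : ℚ) /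
    (((m : ℚ) + 1) ^ 2 * (m + 2) * (m.factorial : ℚ) * ((6 * m + 10).factorial : ℚ)) := by
  intro m
  induction m with
  | zero =>
    simp [SS, tt, Nat.factorial]
    norm_num
  | succ m ih =>
    have h := SS_rec m
    rw [ih] at h
    have hne : ((m : ℚ) + 3) * (2 * m + 5) ≠ 0 := by positivity
    have h2 : SS (m + 1) = (9 * ((m : ℚ) + 1) * (m + 2) * (3 * m + 8) * (3 * m + 7) * (3 * m + 5) *
        (2 * m + 3) * (3 * m + 4) * (3 * ((3 * m + 5).factorial : ℚ) ^ 2 *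
        ((6 * m + 7).factorial : ℚ) /
        (((m : ℚ) + 1) ^ 2 * (m + 2) * (m.factorial : ℚ) * ((6 * m + 10).factorial : ℚ)))) /
        (((m : ℚ) + 3) * (2 * m + 5)) := by
      rw [eq_div_iff hne, ← h]; ring
    rw [h2]
    have e1 : 3 * (m + 1) + 5 = 3 * m + 5 + 1 + 1 + 1 := by ring
    have e2 : 6 * (m + 1) + 7 = 6 * m + 7 + 1 + 1 + 1 + 1 + 1 + 1 := by ring
    have e3 : 6 * (m + 1) + 10 = 6 * m + 10 + 1 + 1 + 1 + 1 + 1 + 1 := by ring
    have e4 : 6 * m + 10 = 6 * m + 7 + 1 + 1 + 1 := by ring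
    rw [e1, e2, e3]
    simp only [Nat.factorial_succ (3 * m + 5 + 1 + 1), Nat.factorial_succ (3 * m + 5 + 1),
      Nat.factorial_succ (3 * m + 5), Nat.factorial_succ (6 * m + 10 + 1 + 1 + 1 + 1 + 1),
      Nat.factorial_succ (6 * m + 10 + 1 + 1 + 1 + 1), Nat.factorial_succ (6 * m + 10 + 1 + 1 + 1),
      Nat.factorial_succ (6 * m + 10 + 1 + 1), Nat.factorial_succ (6 * m + 10 + 1),
      Nat.factorial_succ (6 * m + 10)]
    rw [e4]
    simp only [Nat.factorial_succ (6 * m + 7 + 1 + 1), Nat.factorial_succ (6 * m + 7 + 1),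
      Nat.factorial_succ (6 * m + 7), Nat.factorial_succ m]
    have n1 := fact_ne (6 * m + 7)
    have n2 := fact_ne m
    have n3 := fact_ne (3 * m + 5)
    push_cast
    field_simp
    ring

end Pool.Agent.Helper2SYT
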