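import Pool.Agent.Helper2SYT.Closed
import Pool.Agent.Helper2SYT.Ens
import Pool.Agent.Helper2SYT.WZ

set_option autoImplicit false
set_option linter.unusedSectionVars false

/-!
# Evaluation
-/

namespace Pool.Agent.Helper2SYT

open Finset Function Matrix

/-- the weight without `p` -/
noncomputable def Wt (m x : ℕ) : ℝ := ((2 * m).choose x : ℝ) / (((2 * m).factorial : ℝ) *
  (2 * m + 4 - x))

/-- the size of the lower part -/
def AA (m : ℕ) (x : Fin (m + 1) → ℕ) : ℕ := 2 * m + 1 + (∑ j, x j - ∑ j : Fin (m + 1), (j : ℕ))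

/-- the number of cells besides the pivot -/
def TT (m : ℕ) : ℕ := m ^ 2 + 6 * m + 6

/-- the square of the difference product -/
noncomputable def dd {n : ℕ} (x : Fin n → ℕ) : ℝ := (vandermonde fun k => ((x k : ℕ) : ℝ)).det ^ 2

/-- the summand -/
noncomputable def Phi (m : ℕ) (x : Fin (m + 1) → ℕ) : ℝ :=
  ((AA m x).factorial : ℝ) * ((TT m - AA m x).factorial : ℝ) * ((∏ j, Wt m (x j)) * dd x)

theorem V_sq {n : ℕ} (x : Fin n → ℕ) : ((V (fun j => (x j : ℚ)) : ℚ) : ℝ) ^ 2 = dd x := by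
  unfold dd V
  rw [det_vandermonde]
  push_cast
  rw [← prod_pow, ← prod_pow]
  apply prod_congr rfl
  intro i _
  rw [← prod_pow, ← prod_pow]
  apply prod_congr rfl
  intro j _
  ring

theorem pointwise (m x : ℕ) (hx : x ≤ 2 * m) :
    (2 * (m : ℝ) + 3 - x) * (2 * (m : ℝ) + 1 - x) * (2 * (m : ℝ) + 2 - x) /
      (((x.factorial : ℕ) : ℝ) * (((2 * m + 4 - x).factorial : ℕ) : ℝ)) = Wt m x := by
  obtain ⟨e, he⟩ : ∃ e, 2 * m = x + e := ⟨2 * m - x, by omega⟩
  have he' : (2 * (m : ℝ)) = x + e := by exact_mod_cast he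
  unfold Wt
  have e1 : 2 * m + 4 - x = e + 1 + 1 + 1 + 1 := by omega
  rw [e1, he', he]
  have h1 : ((x + e).choose x : ℝ) * (x.factorial : ℝ) * (e.factorial : ℝ) =
      ((x + e).factorial : ℝ) := by
    have := Nat.choose_mul_factorial_mul_factorial (show x ≤ x + e by omega)
    rw [Nat.add_sub_cancel_left] at this
    exact_mod_cast this
  simp only [Nat.factorial_succ]
  have n1 : (x.factorial : ℝ) ≠ 0 := by exact_mod_cast x.factorial_ne_zero
  have n2 : (e.factorial : ℝ) ≠ 0 := by exact_mod_cast e.factorial_ne_zero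
  have n3 : ((x + e).factorial : ℝ) ≠ 0 := by exact_mod_cast (x + e).factorial_ne_zero
  have n4 : ((e : ℝ) + 1) ≠ 0 := by positivity
  have n5 : ((e : ℝ) + 2) ≠ 0 := by positivity
  have n6 : ((e : ℝ) + 3) ≠ 0 := by positivity
  have n7 : ((e : ℝ) + 4) ≠ 0 := by positivity
  rw [← h1]
  rw [← h1] at n3
  have e2 : (x : ℝ) + e + 4 - x = e + 4 := by ring
  have e3 : (x : ℝ) + e + 3 - x = e + 3 := by ring
  have e4 : (x : ℝ) + e + 2 - x = e + 2 := by ring
  have e5 : (x : ℝ) + e + 1 - x = e + 1 := by ring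
  have n8 : (((x + e).choose x : ℕ) : ℝ) ≠ 0 := by
    intro h; apply n3; rw [h]; ring
  rw [e2, e3, e4, e5]
  push_cast
  field_simp
  ring

theorem lv_le (m : ℕ) (σ : Fin (m + 1) → ℕ) (hσ : ∀ j, σ j ≤ m) (j : Fin (m + 1)) :
    lv σ j ≤ 2 * m := by
  unfold lv
  have := hσ j
  simp only [Fin.val_rev]
  omega

theorem term_eq (m : ℕ) (σ : Fin (m + 1) → ℕ) (hanti : Antitone σ) (hσ : ∀ j, σ j ≤ m) :
    ((hh (m + 1) (Fin.cons (m + 1) σ) : ℕ) : ℝ) *
      ((num Adj (shp (Fin.cons (m + 1) (Fin.cons m σ) : Fin (m + 1 + 2) → ℕ)) : ℕ) : ℝ) =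
    Phi m (lv σ) / (((2 * m + 3).factorial : ℝ) * ((2 * m + 1).factorial : ℝ)) := by
  have h1 := congrArg (fun q : ℚ => (q : ℝ)) (closed_up m σ hanti hσ)
  have h2 := congrArg (fun q : ℚ => (q : ℝ)) (closed_low m σ hanti hσ)
  rw [Rat.cast_natCast] at h1 h2
  rw [h1, h2]
  unfold Phi
  rw [← V_sq, ← prod_congr rfl (fun j _ => pointwise m (lv σ j) (lv_le m σ hσ j))]
  have e1 : AA m (lv σ) = 2 * m + 1 + ∑ j, σ j := by
    unfold AA
    rw [sum_lv, Nat.add_sub_cancel_left]
  have e2 : TT m - AA m (lv σ) = 2 + ∑ j, (m + 3 - σ j) := by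
    have h3 : ∑ j, (m + 3 - σ j) + ∑ j, σ j = (m + 1) * (m + 3) := by
      rw [← sum_add_distrib]
      have : ∀ j : Fin (m + 1), m + 3 - σ j + σ j = m + 3 := by
        intro j
        have := hσ j
        omega
      simp only [this]
      simp
    rw [e1]
    unfold TT
    have h4 : (m + 1) * (m + 3) = m ^ 2 + 4 * m + 3 := by ring
    omega
  rw [e2, e1, prod_div_distrib, prod_mul_distrib, prod_mul_distrib, prod_mul_distrib]
  have n1 : (∏ j, (((2 * m + 4 - lv σ j).factorial : ℕ) : ℝ)) ≠ 0 := by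
    rw [prod_ne_zero_iff]; intro j _; exact_mod_cast Nat.factorial_ne_zero _
  have n2 : (∏ j, (((lv σ j).factorial : ℕ) : ℝ)) ≠ 0 := by
    rw [prod_ne_zero_iff]; intro j _; exact_mod_cast Nat.factorial_ne_zero _
  have n3 : (((2 * m + 3).factorial : ℕ) : ℝ) ≠ 0 := by exact_mod_cast Nat.factorial_ne_zero _
  have n4 : (((2 * m + 1).factorial : ℕ) : ℝ) ≠ 0 := by exact_mod_cast Nat.factorial_ne_zero _
  push_cast
  field_simp

theorem dd_perm {n : ℕ} (x : Fin n → ℕ) (τ : Equiv.Perm (Fin n)) : dd (x ∘ τ) = dd x := by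
  unfold dd
  have : (vandermonde fun k => (((x ∘ τ) k : ℕ) : ℝ)) =
      (vandermonde fun k => ((x k : ℕ) : ℝ)).submatrix τ id := by
    ext i j
    simp [vandermonde_apply]
  rw [this, det_permute, mul_pow]
  rcases Int.units_eq_one_or (Equiv.Perm.sign τ) with h | h <;> rw [h] <;> simp

theorem dd_zero {n : ℕ} (x : Fin n → ℕ) (h : ¬ Injective x) : dd x = 0 := by
  unfold dd
  rw [not_injective_iff] at h
  obtain ⟨i, j, hij, hne⟩ := h
  have : (vandermonde fun k => ((x k : ℕ) : ℝ)).det = 0 := by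
    apply det_zero_of_row_eq hne
    funext k
    simp [vandermonde_apply, hij]
  rw [this]; ring

theorem AA_perm (m : ℕ) (x : Fin (m + 1) → ℕ) (τ : Equiv.Perm (Fin (m + 1))) :
    AA m (x ∘ τ) = AA m x := by
  unfold AA
  rw [← Equiv.sum_comp τ x]
  rfl

theorem Phi_perm (m : ℕ) (x : Fin (m + 1) → ℕ) (τ : Equiv.Perm (Fin (m + 1))) :
    Phi m (x ∘ τ) = Phi m x := by
  unfold Phi
  rw [dd_perm, AA_perm, ← Equiv.prod_comp τ (fun j => Wt m (x j))]
  rfl

/-- the number of tableaux as a sum over all tuples -/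
theorem count_eq (m : ℕ) :
    ((gg (m + 1) (full (m + 1)) : ℕ) : ℝ) * ((m + 1).factorial : ℝ) *
      (((2 * m + 3).factorial : ℝ) * ((2 * m + 1).factorial : ℝ)) =
    ∑ a : Fin (m + 1) → Fin (2 * m + 1), Phi m (fun k => (a k : ℕ)) := by
  classical
  have n3 : (((2 * m + 3).factorial : ℕ) : ℝ) ≠ 0 := by exact_mod_cast Nat.factorial_ne_zero _
  have n4 : (((2 * m + 1).factorial : ℕ) : ℝ) ≠ 0 := by exact_mod_cast Nat.factorial_ne_zero _
  have h1 : ((gg (m + 1) (full (m + 1)) : ℕ) : ℝ) =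
      (∑ b ∈ univ.filter (fun b : Fin (m + 1) → Fin (2 * m + 1) => StrictMono b),
      Phi m (fun j => (b j : ℕ))) /
        (((2 * m + 3).factorial : ℝ) * ((2 * m + 1).factorial : ℝ)) := by
    rw [split_box (show 0 < m + 1 from Nat.succ_pos m), Nat.cast_sum]
    simp only [Nat.cast_mul]
    have h2 : ∀ σ ∈ (Fintype.piFinset fun _ : Fin (m + 1) => range (m + 1)).filter
        (fun σ => ∀ i j, i ≤ j → σ j ≤ σ i),
        ((hh (m + 1) (Fin.cons (m + 1) σ) : ℕ) : ℝ) *
        ((num Adj (shp (Fin.cons (m + 1) (Fin.cons (m + 1 - 1) σ) : Fin (m + 1 + 2) → ℕ)) : ℕ) : ℝ) =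
        Phi m (lv σ) / (((2 * m + 3).factorial : ℝ) * ((2 * m + 1).factorial : ℝ)) := by
      intro σ hσ
      obtain ⟨h3, h4⟩ := mem_filter.1 hσ
      rw [Fintype.mem_piFinset] at h3
      exact term_eq m σ (fun i j hij => h4 i j hij) (fun j => by
        have := h3 j
        rw [mem_range] at this
        omega)
    rw [sum_congr rfl h2, ← sum_div, sum_box m (Phi m)]
    congr 1
    apply sum_congr rfl
    intro b _
    exact Phi_perm m (fun j => (b j : ℕ)) Fin.revPerm
  rw [h1, ← sum_strictMono (fun a => Phi m (fun k => (a k : ℕ)))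
    (fun a τ => Phi_perm m (fun k => (a k : ℕ)) τ)]
  · field_simp
  · intro a ha
    unfold Phi
    rw [dd_zero]
    · ring
    · intro h
      apply ha
      intro i j hij
      exact h (by simp only [hij])

/-- the generating function of the summands -/
noncomputable def EE (m : ℕ) (p : ℝ) : ℝ :=
  ∑ a : Fin (m + 1) → Fin (2 * m + 1), ((∏ j, Wt m (a j : ℕ)) * dd (fun k => (a k : ℕ))) *
    (p ^ AA m (fun k => (a k : ℕ)) * (1 - p) ^ (TT m - AA m (fun k => (a k : ℕ))))

theorem AA_le (m : ℕ) (a : Fin (m + 1) → Fin (2 * m + 1)) (ha : Injective a) :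
    ∑ j : Fin (m + 1), (j : ℕ) + AA m (fun k => (a k : ℕ)) = 2 * m + 1 + ∑ j, (a j : ℕ) ∧
    ∑ j : Fin (m + 1), (j : ℕ) + (TT m - AA m (fun k => (a k : ℕ))) =
      3 * m + 5 + ∑ j, (2 * m - (a j : ℕ)) ∧ AA m (fun k => (a k : ℕ)) ≤ TT m := by
  have h1 : ∑ j : Fin (m + 1), (j : ℕ) ≤ ∑ j, (a j : ℕ) :=
    sum_injective_ge (f := fun j => (a j : ℕ)) (fun i j hij => ha (Fin.ext hij))
  have h2 : ∑ j, (2 * m - (a j : ℕ)) + ∑ j, (a j : ℕ) = (m + 1) * (2 * m) := by
    rw [← sum_add_distrib]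
    have : ∀ j : Fin (m + 1), 2 * m - (a j : ℕ) + (a j : ℕ) = 2 * m := by
      intro j
      have := (a j).2
      omega
    simp only [this]
    simp
  have h3 : (∑ j : Fin (m + 1), (j : ℕ)) * 2 = (m + 1) * m := by
    rw [Fin.sum_univ_eq_sum_range (fun j => j) (m + 1), sum_range_id_mul_two]
    simp
  have h4 : (m + 1) * (2 * m) = 2 * m ^ 2 + 2 * m := by ring
  have h5 : (m + 1) * m = m ^ 2 + m := by ring
  have h6 : AA m (fun k => (a k : ℕ)) = 2 * m + 1 + (∑ j, (a j : ℕ) - ∑ j : Fin (m + 1), (j : ℕ)) :=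
    rfl
  have h7 : TT m = m ^ 2 + 6 * m + 6 := rfl
  have h8 : ∑ j : Fin (m + 1), (j : ℕ) ≤ ∑ j, (2 * m - (a j : ℕ)) :=
    sum_injective_ge (f := fun j => 2 * m - (a j : ℕ)) (fun i j hij => by
      apply ha
      apply Fin.ext
      have h9 := (a i).2
      have h10 := (a j).2
      simp only at hij
      omega)
  refine ⟨by omega, by omega, by omega⟩

theorem EE_eq (m : ℕ) (p : ℝ) (hp : 0 < p) (hp1 : p < 1) :
    EE m p = (1 / ((2 * m).factorial : ℝ) ^ (m + 1) * (((m + 1).factorial : ℝ) *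
      ((m.factorial : ℝ) * ((2 * m).choose m : ℝ) *
        ∏ i : Fin m, (((i : ℕ).factorial : ℝ) ^ 2 * ((2 * m).choose i : ℝ))))) *
      (p ^ (2 * m + 1) * (1 - p) ^ (3 * m + 5) * JJ m p) := by
  have hq : 0 < 1 - p := by linarith
  have hpq : (p * (1 - p)) ^ (∑ j : Fin (m + 1), (j : ℕ)) ≠ 0 := by positivity
  have h1 : (p * (1 - p)) ^ (∑ j : Fin (m + 1), (j : ℕ)) * EE m p =
      1 / ((2 * m).factorial : ℝ) ^ (m + 1) * (p ^ (2 * m + 1) * (1 - p) ^ (3 * m + 5)) *
      ∑ a : Fin (m + 1) → Fin (2 * m + 1), (∏ k, (ww m p (a k) / (2 * m + 4 - (a k : ℕ)))) *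
      (vandermonde fun k => ((a k : ℕ) : ℝ)).det ^ 2 := by
    unfold EE
    rw [mul_sum, mul_sum]
    apply sum_congr rfl
    intro a _
    by_cases ha : Injective a
    · obtain ⟨h2, h3, _⟩ := AA_le m a ha
      have h4 : (∏ k, (ww m p (a k) / (2 * m + 4 - (a k : ℕ)))) =
          ((2 * m).factorial : ℝ) ^ (m + 1) * (∏ j, Wt m (a j : ℕ)) *
            (p ^ (∑ j, (a j : ℕ)) * (1 - p) ^ (∑ j, (2 * m - (a j : ℕ)))) := by
        rw [← prod_pow_eq_pow_sum, ← prod_pow_eq_pow_sum, ← prod_mul_distrib]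
        have h5 : ((2 * m).factorial : ℝ) ^ (m + 1) =
            ∏ _j : Fin (m + 1), ((2 * m).factorial : ℝ) := by
          rw [prod_const, card_univ, Fintype.card_fin]
        rw [h5, ← prod_mul_distrib, ← prod_mul_distrib]
        apply prod_congr rfl
        intro j _
        unfold ww Wt
        have n1 : ((2 * m).factorial : ℝ) ≠ 0 := by exact_mod_cast (2 * m).factorial_ne_zero
        have n2 : (2 * (m : ℝ) + 4 - ((a j : ℕ) : ℝ)) ≠ 0 := by
          have : ((a j : ℕ) : ℝ) ≤ 2 * m := by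
            have := (a j).2
            have h' : (a j : ℕ) ≤ 2 * m := by omega
            exact_mod_cast h'
          linarith
        field_simp
      have h6 : (p * (1 - p)) ^ (∑ j : Fin (m + 1), (j : ℕ)) *
          (p ^ AA m (fun k => (a k : ℕ)) * (1 - p) ^ (TT m - AA m (fun k => (a k : ℕ)))) =
          (p ^ (2 * m + 1) * (1 - p) ^ (3 * m + 5)) *
            (p ^ (∑ j, (a j : ℕ)) * (1 - p) ^ (∑ j, (2 * m - (a j : ℕ)))) := by
        rw [mul_pow]
        calc p ^ (∑ j : Fin (m + 1), (j : ℕ)) * (1 - p) ^ (∑ j : Fin (m + 1), (j : ℕ)) *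
              (p ^ AA m (fun k => (a k : ℕ)) * (1 - p) ^ (TT m - AA m (fun k => (a k : ℕ))))
            = p ^ (∑ j : Fin (m + 1), (j : ℕ) + AA m (fun k => (a k : ℕ))) *
              (1 - p) ^ (∑ j : Fin (m + 1), (j : ℕ) + (TT m - AA m (fun k => (a k : ℕ)))) := by
              rw [pow_add, pow_add]; ring
          _ = _ := by rw [h2, h3, pow_add, pow_add]; ring
      rw [h4]
      have n1 : ((2 * m).factorial : ℝ) ^ (m + 1) ≠ 0 := by
        have : ((2 * m).factorial : ℝ) ≠ 0 := by exact_mod_cast (2 * m).factorial_ne_zero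
        positivity
      calc (p * (1 - p)) ^ (∑ j : Fin (m + 1), (j : ℕ)) *
            (((∏ j, Wt m (a j : ℕ)) * dd (fun k => (a k : ℕ))) *
            (p ^ AA m (fun k => (a k : ℕ)) * (1 - p) ^ (TT m - AA m (fun k => (a k : ℕ)))))
          = ((∏ j, Wt m (a j : ℕ)) * dd (fun k => (a k : ℕ))) *
            ((p * (1 - p)) ^ (∑ j : Fin (m + 1), (j : ℕ)) *
            (p ^ AA m (fun k => (a k : ℕ)) * (1 - p) ^ (TT m - AA m (fun k => (a k : ℕ))))) := by
            ring
        _ = _ := by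
            rw [h6]
            unfold dd
            field_simp
    · have h2 : dd (fun k => (a k : ℕ)) = 0 := by
        apply dd_zero
        intro h
        apply ha
        intro i j hij
        exact h (by simp only [hij])
      have h3 : (vandermonde fun k => ((a k : ℕ) : ℝ)).det ^ 2 = 0 := h2
      rw [h2, h3]
      ring
  rw [ensemble] at h1
  have h2 : (p * (1 - p)) ^ m * ∏ i : Fin m, hd m p i =
      (p * (1 - p)) ^ (∑ j : Fin (m + 1), (j : ℕ)) *
        ∏ i : Fin m, (((i : ℕ).factorial : ℝ) ^ 2 * ((2 * m).choose i : ℝ)) := by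
    unfold hd
    rw [prod_mul_distrib, prod_pow_eq_pow_sum, Fin.sum_univ_castSucc]
    simp only [Fin.val_castSucc, Fin.val_last]
    rw [pow_add]
    ring
  apply mul_left_cancel₀ hpq
  rw [h1]
  calc 1 / ((2 * m).factorial : ℝ) ^ (m + 1) * (p ^ (2 * m + 1) * (1 - p) ^ (3 * m + 5)) *
        (((m + 1).factorial : ℝ) * ((m.factorial : ℝ) * (((2 * m).choose m : ℝ) *
        (p * (1 - p)) ^ m * JJ m p) * ∏ i : Fin m, hd m p i))
      = 1 / ((2 * m).factorial : ℝ) ^ (m + 1) * (p ^ (2 * m + 1) * (1 - p) ^ (3 * m + 5)) *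
        (((m + 1).factorial : ℝ) * ((m.factorial : ℝ) * (((2 * m).choose m : ℝ) * JJ m p) *
        ((p * (1 - p)) ^ m * ∏ i : Fin m, hd m p i))) := by ring
    _ = _ := by rw [h2]; ring

theorem integral_EE (m : ℕ) :
    ∫ p in (0 : ℝ)..1, EE m p =
      (∑ a : Fin (m + 1) → Fin (2 * m + 1), Phi m (fun k => (a k : ℕ))) /
        ((TT m + 1).factorial : ℝ) := by
  unfold EE
  rw [intervalIntegral.integral_finsetSum]
  · rw [sum_div]
    apply sum_congr rfl
    intro a _
    rw [intervalIntegral.integral_const_mul, beta]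
    unfold Phi
    by_cases ha : Injective a
    · obtain ⟨_, _, h3⟩ := AA_le m a ha
      have : AA m (fun k => (a k : ℕ)) + (TT m - AA m (fun k => (a k : ℕ))) + 1 = TT m + 1 := by
        omega
      rw [this]
      ring
    · have h2 : dd (fun k => (a k : ℕ)) = 0 := by
        apply dd_zero
        intro h
        apply ha
        intro i j hij
        exact h (by simp only [hij])
      rw [h2]
      ring
  · intro a _
    apply Continuous.intervalIntegrable; fun_prop

theorem integral_JJ (m : ℕ) :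
    ∫ p in (0 : ℝ)..1, p ^ (2 * m + 1) * (1 - p) ^ (3 * m + 5) * JJ m p =
      (m.factorial : ℝ) * ((SS m : ℚ) : ℝ) / ((6 * m + 7).factorial : ℝ) := by
  unfold JJ
  have h1 : ∀ p : ℝ, p ^ (2 * m + 1) * (1 - p) ^ (3 * m + 5) *
      ∑ k ∈ range (m + 1), (m.choose k : ℝ) * p ^ (m - k) * (1 - p) ^ k *
      (((k + 3).factorial : ℝ) * (m.factorial : ℝ) / ((m + k + 4).factorial : ℝ)) =
      ∑ k ∈ range (m + 1), ((m.choose k : ℝ) *
      (((k + 3).factorial : ℝ) * (m.factorial : ℝ) / ((m + k + 4).factorial : ℝ))) *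
      (p ^ (3 * m + 1 - k) * (1 - p) ^ (3 * m + 5 + k)) := by
    intro p
    rw [mul_sum]
    apply sum_congr rfl
    intro k hk
    rw [mem_range] at hk
    have e : 3 * m + 1 - k = 2 * m + 1 + (m - k) := by omega
    rw [e, pow_add, pow_add]
    ring
  simp only [h1]
  rw [intervalIntegral.integral_finsetSum]
  · unfold SS tt
    push_cast
    rw [mul_sum, sum_div]
    apply sum_congr rfl
    intro k hk
    rw [mem_range] at hk
    rw [intervalIntegral.integral_const_mul, beta]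
    have e : 3 * m + 1 - k + (3 * m + 5 + k) + 1 = 6 * m + 7 := by omega
    rw [e]
    ring
  · intro k _
    apply Continuous.intervalIntegrable; fun_prop

/-- the sum over all tuples -/
theorem sum_Phi (m : ℕ) :
    (∑ a : Fin (m + 1) → Fin (2 * m + 1), Phi m (fun k => (a k : ℕ))) /
        ((TT m + 1).factorial : ℝ) =
    (1 / ((2 * m).factorial : ℝ) ^ (m + 1) * (((m + 1).factorial : ℝ) *
      ((m.factorial : ℝ) * ((2 * m).choose m : ℝ) *
        ∏ i : Fin m, (((i : ℕ).factorial : ℝ) ^ 2 * ((2 * m).choose i : ℝ))))) *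
      ((m.factorial : ℝ) * ((SS m : ℚ) : ℝ) / ((6 * m + 7).factorial : ℝ)) := by
  rw [← integral_EE, ← integral_JJ, ← intervalIntegral.integral_const_mul]
  apply intervalIntegral.integral_congr_Ioo_of_le zero_le_one
  intro p hp
  exact EE_eq m p hp.1 hp.2

end Pool.Agent.Helper2SYT
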