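import Mathlib

set_option autoImplicit false
set_option linter.unusedSectionVars false

/-!
# Counting standard fillings of finite sets of cells
-/

namespace Pool.Agent.Helper2SYT

open Finset Function

variable {α : Type*} [DecidableEq α]

/-- `T` is a standard filling of the finite set `S` with respect to the relation `R`: it restricts
to a bijection of `S` onto `{1, …, |S|}` which increases along the pairs related by `R`, and it is
`0` outside `S`. -/
structure Std (R : α → α → Prop) (S : Finset α) (T : α → ℕ) : Prop where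
  bij : Set.BijOn T S (Set.Icc 1 S.card)
  lt : ∀ a ∈ S, ∀ b ∈ S, R a b → T a < T b
  zero : ∀ c, c ∉ S → T c = 0

/-- The number of standard fillings. -/
noncomputable def num (R : α → α → Prop) (S : Finset α) : ℕ := Nat.card {T : α → ℕ // Std R S T}

variable {R : α → α → Prop}

theorem std_empty (T : α → ℕ) : Std R ∅ T ↔ T = 0 := by
  constructor
  · intro h
    funext c
    exact h.zero c (by simp)
  · rintro rfl
    refine ⟨?_, by simp, by simp⟩
    simp [Set.BijOn, Set.MapsTo, Set.InjOn, Set.SurjOn]

theorem num_empty : num R (∅ : Finset α) = 1 := by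
  unfold num
  rw [Nat.card_eq_one_iff_unique]
  refine ⟨⟨?_⟩, ⟨⟨0, (std_empty 0).2 rfl⟩⟩⟩
  rintro ⟨T, hT⟩ ⟨T', hT'⟩
  exact Subtype.ext (((std_empty T).1 hT).trans ((std_empty T').1 hT').symm)

/-- The corners of `S`. -/
def IsCorner (R : α → α → Prop) (S : Finset α) (x : α) : Prop := x ∈ S ∧ ∀ y ∈ S, ¬ R x y

theorem Std.le_card {S : Finset α} {T : α → ℕ} (h : Std R S T) {a : α} (ha : a ∈ S) :
    1 ≤ T a ∧ T a ≤ S.card := h.bij.mapsTo ha

theorem Std.exists_top {S : Finset α} {T : α → ℕ} (h : Std R S T) (hS : S.Nonempty) :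
    ∃ x ∈ S, T x = S.card := by
  have h1 : S.card ∈ Set.Icc 1 S.card := ⟨hS.card_pos, le_rfl⟩
  obtain ⟨x, hx, hx'⟩ := h.bij.surjOn h1
  exact ⟨x, hx, hx'⟩

theorem Std.corner {S : Finset α} {T : α → ℕ} (h : Std R S T) {x : α} (hx : x ∈ S)
    (hT : T x = S.card) : IsCorner R S x := by
  refine ⟨hx, fun y hy hR => ?_⟩
  have h1 := h.lt x hx y hy hR
  have h2 := (h.le_card hy).2
  omega

theorem Std.erase {S : Finset α} {T : α → ℕ} (h : Std R S T) {x : α} (hx : x ∈ S)
    (hT : T x = S.card) : Std R (S.erase x) (update T x 0) := by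
  have hc : (S.erase x).card = S.card - 1 := card_erase_of_mem hx
  have hpos : 0 < S.card := card_pos.2 ⟨x, hx⟩
  have hne : ∀ a ∈ S.erase x, update T x 0 a = T a := by
    intro a ha
    rw [update_of_ne (ne_of_mem_erase ha)]
  refine ⟨⟨?_, ?_, ?_⟩, ?_, ?_⟩
  · intro a ha
    have ha' : a ∈ S.erase x := ha
    rw [hne a ha', Set.mem_Icc, hc]
    have h1 := h.le_card (mem_of_mem_erase ha')
    have h2 : T a ≠ S.card := by
      intro h3
      exact (ne_of_mem_erase ha') (h.bij.injOn (mem_of_mem_erase ha') hx (h3.trans hT.symm))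
    omega
  · intro a ha b hb hab
    rw [hne a ha, hne b hb] at hab
    exact h.bij.injOn (mem_of_mem_erase (s := S) ha) (mem_of_mem_erase (s := S) hb) hab
  · intro k hk
    rw [Set.mem_Icc, hc] at hk
    obtain ⟨a, ha, hak⟩ := h.bij.surjOn (show k ∈ Set.Icc 1 S.card from ⟨hk.1, by omega⟩)
    have hax : a ≠ x := by
      rintro rfl
      omega
    refine ⟨a, mem_erase.2 ⟨hax, ha⟩, ?_⟩
    rw [update_of_ne hax, hak]
  · intro a ha b hb hab
    rw [hne a ha, hne b hb]
    exact h.lt a (mem_of_mem_erase ha) b (mem_of_mem_erase hb) hab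
  · intro c hc'
    by_cases hcx : c = x
    · subst hcx; simp
    · rw [update_of_ne hcx]
      apply h.zero
      intro hcS
      exact hc' (mem_erase.2 ⟨hcx, hcS⟩)

theorem Std.insert {S : Finset α} {T : α → ℕ} {x : α} (hx : IsCorner R S x)
    (h : Std R (S.erase x) T) : Std R S (update T x S.card) := by
  have hc : (S.erase x).card = S.card - 1 := card_erase_of_mem hx.1
  have hpos : 0 < S.card := card_pos.2 ⟨x, hx.1⟩
  have hne : ∀ a, a ≠ x → update T x S.card a = T a := by
    intro a ha
    rw [update_of_ne ha]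
  have hlt : ∀ a ∈ S, a ≠ x → 1 ≤ T a ∧ T a ≤ S.card - 1 := by
    intro a ha hax
    have := h.le_card (mem_erase.2 ⟨hax, ha⟩)
    rwa [hc] at this
  refine ⟨⟨?_, ?_, ?_⟩, ?_, ?_⟩
  · intro a ha
    have ha' : a ∈ S := ha
    rw [Set.mem_Icc]
    by_cases hax : a = x
    · subst hax; rw [update_self]; omega
    · rw [hne a hax]
      have := hlt a ha' hax
      omega
  · intro a ha b hb hab
    have ha' : a ∈ S := ha
    have hb' : b ∈ S := hb
    by_cases hax : a = x
    · by_cases hbx : b = x
      · rw [hax, hbx]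
      · rw [hax, update_self, hne b hbx] at hab
        have := hlt b hb' hbx
        omega
    · by_cases hbx : b = x
      · rw [hbx, update_self, hne a hax] at hab
        have := hlt a ha' hax
        omega
      · rw [hne a hax, hne b hbx] at hab
        exact h.bij.injOn (mem_erase.2 ⟨hax, ha'⟩ : a ∈ S.erase x)
          (mem_erase.2 ⟨hbx, hb'⟩ : b ∈ S.erase x) hab
  · intro k hk
    rw [Set.mem_Icc] at hk
    by_cases hkc : k = S.card
    · exact ⟨x, hx.1, by rw [update_self, hkc]⟩
    · obtain ⟨a, ha, hak⟩ := h.bij.surjOn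
        (show k ∈ Set.Icc 1 (S.erase x).card from ⟨hk.1, by rw [hc]; omega⟩)
      have ha' : a ∈ S.erase x := ha
      exact ⟨a, mem_of_mem_erase ha', by rw [hne a (ne_of_mem_erase ha'), hak]⟩
  · intro a ha b hb hab
    have hax : a ≠ x := by
      rintro rfl
      exact hx.2 b hb hab
    rw [hne a hax]
    have h1 := hlt a ha hax
    by_cases hbx : b = x
    · subst hbx; rw [update_self]; omega
    · rw [hne b hbx]
      exact h.lt a (mem_erase.2 ⟨hax, ha⟩) b (mem_erase.2 ⟨hbx, hb⟩) hab
  · intro c hc'
    have hcx : c ≠ x := by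
      rintro rfl
      exact hc' hx.1
    rw [hne c hcx]
    exact h.zero c (fun h' => hc' (mem_of_mem_erase h'))

open Classical in
/-- Standard fillings correspond to a corner and a standard filling of the rest. -/
noncomputable def stdEquiv (S : Finset α) (hS : S.Nonempty) :
    {T : α → ℕ // Std R S T} ≃
      Σ x : {x // x ∈ S.filter (IsCorner R S)}, {T : α → ℕ // Std R (S.erase x.1) T} where
  toFun T := ⟨⟨(T.2.exists_top hS).choose, by
      have h := (T.2.exists_top hS).choose_spec
      exact mem_filter.2 ⟨h.1, T.2.corner h.1 h.2⟩⟩,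
    ⟨update T.1 (T.2.exists_top hS).choose 0,
      T.2.erase (T.2.exists_top hS).choose_spec.1 (T.2.exists_top hS).choose_spec.2⟩⟩
  invFun p := ⟨update p.2.1 p.1.1 S.card, p.2.2.insert (mem_filter.1 p.1.2).2⟩
  left_inv T := by
    apply Subtype.ext
    have h := (T.2.exists_top hS).choose_spec
    simp only [update_idem]
    funext a
    by_cases ha : a = (T.2.exists_top hS).choose
    · rw [ha, update_self]
      exact h.2.symm
    · rw [update_of_ne ha]
  right_inv p := by
    obtain ⟨⟨x, hx⟩, ⟨T, hT⟩⟩ := p
    have hxc := (mem_filter.1 hx).2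
    have hstd : Std R S (update T x S.card) := hT.insert hxc
    have h := (hstd.exists_top hS).choose_spec
    have hxx : (hstd.exists_top hS).choose = x := by
      apply hstd.bij.injOn h.1 hxc.1
      rw [h.2, update_self]
    have key : ∀ (y : α) (hy : y ∈ S.filter (IsCorner R S))
        (hyT : Std R (S.erase y) (update (update T x S.card) y 0)), y = x →
        (⟨⟨y, hy⟩, ⟨update (update T x S.card) y 0, hyT⟩⟩ :
          Σ x : {x // x ∈ S.filter (IsCorner R S)}, {T : α → ℕ // Std R (S.erase x.1) T}) =
        ⟨⟨x, hx⟩, ⟨T, hT⟩⟩ := by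
      intro y hy hyT hyx
      subst hyx
      have e : update (update T y S.card) y 0 = T := by
        rw [update_idem]
        have : T y = 0 := hT.zero y (by simp)
        rw [← this, update_eq_self]
      congr 1
      exact Subtype.ext e
    exact key _ _ _ hxx

instance std_finite (R : α → α → Prop) : ∀ S : Finset α, Finite {T : α → ℕ // Std R S T} := by
  classical
  intro S
  induction hn : S.card generalizing S with
  | zero =>
    rw [card_eq_zero] at hn
    subst hn
    have : Subsingleton {T : α → ℕ // Std R ∅ T} := ⟨by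
      rintro ⟨T, hT⟩ ⟨T', hT'⟩
      exact Subtype.ext (((std_empty T).1 hT).trans ((std_empty T').1 hT').symm)⟩
    infer_instance
  | succ n ih =>
    have hS : S.Nonempty := by rw [← card_pos]; omega
    have : ∀ x : {x // x ∈ S.filter (IsCorner R S)},
        Finite {T : α → ℕ // Std R (S.erase x.1) T} := by
      intro x
      apply ih
      rw [card_erase_of_mem (mem_filter.1 x.2).1, hn]
      rfl
    exact Finite.of_equiv _ (stdEquiv S hS).symm

open Classical in
/-- The recursion. -/
theorem num_rec (S : Finset α) (hS : S.Nonempty) :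
    num R S = ∑ x ∈ S.filter (IsCorner R S), num R (S.erase x) := by
  unfold num
  rw [Nat.card_congr (stdEquiv S hS), Nat.card_sigma]
  rw [← Finset.sum_coe_sort (S.filter (IsCorner R S))
    (fun x => Nat.card {T : α → ℕ // Std R (S.erase x) T})]

end Pool.Agent.Helper2SYT
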