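import Mathlib

set_option autoImplicit false
set_option linter.unusedSectionVars false

/-!
# The difference product
-/

namespace Pool.Agent.Helper2SYT

open Finset Function Matrix Polynomial

/-- The difference product `∏_{i<j} (v_i - v_j)`. -/
def V {n : ℕ} (v : Fin n → ℚ) : ℚ := ∏ i, ∏ j ∈ Ioi i, (v i - v j)

theorem V_det {n : ℕ} (v : Fin n → ℚ) :
    V v = (∏ i : Fin n, ∏ _j ∈ Ioi i, (-1 : ℚ)) * (vandermonde v).det := by
  rw [det_vandermonde, ← prod_mul_distrib]
  unfold V
  apply prod_congr rfl
  intro i _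
  rw [← prod_mul_distrib]
  apply prod_congr rfl
  intro j _
  ring

/-- scaling the columns row by row -/
theorem sum_det_updateRow {n : ℕ} (M : Matrix (Fin n) (Fin n) ℚ) (d : Fin n → ℚ) :
    ∑ i, (M.updateRow i (fun j => d j * M i j)).det = (∑ j, d j) * M.det := by
  simp only [det_apply']
  rw [sum_comm, mul_sum]
  apply sum_congr rfl
  intro σ _
  have h : ∀ i : Fin n, ∏ k, (M.updateRow i (fun j => d j * M i j)) (σ k) k =
      d (σ.symm i) * ∏ k, M (σ k) k := by
    intro i
    rw [← mul_prod_erase univ _ (mem_univ (σ.symm i)),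
      ← mul_prod_erase univ (fun k => M (σ k) k) (mem_univ (σ.symm i))]
    rw [Equiv.apply_symm_apply, updateRow_self, mul_assoc]
    congr 2
    apply prod_congr rfl
    intro k hk
    rw [updateRow_ne]
    intro h
    exact (ne_of_mem_erase hk) (by rw [← h, Equiv.symm_apply_apply])
  simp only [h]
  rw [← mul_sum, ← sum_mul, Equiv.sum_comp σ.symm d]
  ring

/-- the matrix of falling factorials -/
noncomputable def FM {n : ℕ} (x : Fin n → ℚ) : Matrix (Fin n) (Fin n) ℚ :=
  Matrix.of fun i j => (descPochhammer ℚ (j : ℕ)).eval (x i)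

theorem det_FM {n : ℕ} (x : Fin n → ℚ) : (FM x).det = (vandermonde x).det := by
  rw [Matrix.det_eval_matrixOfPolynomials_eq_det_vandermonde x
    (fun j => descPochhammer ℚ (j : ℕ)) (fun i => descPochhammer_natDegree ℚ i)
    (fun i => monic_descPochhammer ℚ i)]
  rfl

theorem fall_shift (j : ℕ) (t : ℚ) :
    t * (descPochhammer ℚ j).eval (t - 1) = (t - j) * (descPochhammer ℚ j).eval t := by
  have h1 := congrArg (Polynomial.eval t) (descPochhammer_succ_left ℚ j)
  have h2 := congrArg (Polynomial.eval t) (descPochhammer_succ_right ℚ j)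
  rw [h1] at h2
  simp only [eval_mul, eval_X, eval_comp, eval_sub, eval_one, eval_natCast] at h2
  rw [h2]; ring

theorem vdm_identity {n : ℕ} (x : Fin n → ℚ) :
    ∑ i, x i * (vandermonde (update x i (x i - 1))).det =
      (∑ i, x i - ∑ j : Fin n, (j : ℚ)) * (vandermonde x).det := by
  have h1 : ∀ i, x i * (vandermonde (update x i (x i - 1))).det =
      x i * (FM x).det - ((FM x).updateRow i (fun j => (j : ℚ) * FM x i j)).det := by
    intro i
    have e1 : FM (update x i (x i - 1)) = (FM x).updateRow i
        (fun j => (descPochhammer ℚ (j : ℕ)).eval (x i - 1)) := by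
      ext a b
      by_cases h : a = i
      · subst h
        simp [FM]
      · rw [updateRow_ne h]
        simp [FM, update_of_ne h]
    have e2 : x i * ((FM x).updateRow i
        (fun j => (descPochhammer ℚ (j : ℕ)).eval (x i - 1))).det =
        ((FM x).updateRow i (fun j => x i * (descPochhammer ℚ (j : ℕ)).eval (x i - 1))).det := by
      rw [← det_updateRow_smul]
      rfl
    have e3 : (fun j : Fin n => x i * (descPochhammer ℚ (j : ℕ)).eval (x i - 1)) =
        (x i • (FM x) i) + (-1 : ℚ) • (fun j : Fin n => (j : ℚ) * FM x i j) := by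
      funext j
      rw [fall_shift]
      simp only [Pi.add_apply, Pi.smul_apply, smul_eq_mul, FM, Matrix.of_apply]
      ring
    rw [← det_FM, e1, e2, e3, det_updateRow_add, det_updateRow_smul, det_updateRow_smul,
      updateRow_eq_self]
    ring
  simp only [h1]
  rw [sum_sub_distrib, ← sum_mul, sum_det_updateRow, det_FM]
  ring

/-- the main identity of the difference product -/
theorem V_identity {n : ℕ} (x : Fin n → ℚ) :
    ∑ i, x i * V (update x i (x i - 1)) = (∑ i, x i - ∑ j : Fin n, (j : ℚ)) * V x := by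
  simp only [V_det]
  have h := vdm_identity x
  calc ∑ i, x i * ((∏ i : Fin n, ∏ _j ∈ Ioi i, (-1 : ℚ)) *
        (vandermonde (update x i (x i - 1))).det)
      = (∏ i : Fin n, ∏ _j ∈ Ioi i, (-1 : ℚ)) *
        ∑ i, x i * (vandermonde (update x i (x i - 1))).det := by
        rw [mul_sum]
        apply sum_congr rfl
        intro i _
        ring
    _ = _ := by rw [h]; ring

theorem V_eq_zero {n : ℕ} (x : Fin n → ℚ) {i j : Fin n} (hij : i < j) (h : x i = x j) :
    V x = 0 := by
  unfold V
  apply prod_eq_zero (mem_univ i)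
  apply prod_eq_zero (mem_Ioi.2 hij)
  rw [h, sub_self]

theorem V_cons {n : ℕ} (a : ℚ) (v : Fin n → ℚ) :
    V (Fin.cons a v : Fin (n + 1) → ℚ) = (∏ j, (a - v j)) * V v := by
  unfold V
  rw [Fin.prod_univ_succ]
  congr 1
  · rw [Fin.prod_Ioi_zero]
    simp
  · apply prod_congr rfl
    intro i _
    rw [Fin.prod_Ioi_succ]
    simp

/-- the difference product of a reversed sequence -/
theorem V_rev {n : ℕ} (v : Fin n → ℚ) :
    V (fun k => v (Fin.rev k)) = V (fun k => - v k) := by
  unfold V
  have h1 : ∏ i : Fin n, ∏ j ∈ Ioi i, (v (Fin.rev i) - v (Fin.rev j)) =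
      ∏ i : Fin n, ∏ j ∈ Iio i, (v i - v j) := by
    rw [← Equiv.prod_comp (Fin.revPerm (n := n)) (fun i => ∏ j ∈ Iio i, (v i - v j))]
    apply prod_congr rfl
    intro i _
    apply prod_bij' (fun j _ => Fin.rev j) (fun j _ => Fin.rev j)
    · intro j hj
      rw [mem_Ioi] at hj
      rw [mem_Iio]
      exact Fin.rev_lt_rev.2 hj
    · intro j hj
      rw [mem_Iio] at hj
      rw [mem_Ioi]
      have := Fin.rev_lt_rev.2 hj
      simpa using this
    · intro j _; exact Fin.rev_rev j
    · intro j _; exact Fin.rev_rev j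
    · intro j _; rfl
  rw [h1]
  rw [prod_comm' (t' := univ) (s' := fun j => Ioi j) (by intro i j; simp)]
  apply prod_congr rfl
  intro i _
  apply prod_congr rfl
  intro j _
  ring

end Pool.Agent.Helper2SYT
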