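import Pool.Agent.Helper2SYT.Rec
import Pool.Agent.Helper2SYT.Van

set_option autoImplicit false
set_option linter.unusedSectionVars false

/-!
# Shapes with given row lengths, and the number of standard tableaux of a partition
-/

namespace Pool.Agent.Helper2SYT

open Finset Function

/-- The cell `b` is the right or the lower neighbour of the cell `a`. -/
def Adj (a b : ℕ × ℕ) : Prop := (b.1 = a.1 ∧ b.2 = a.2 + 1) ∨ (b.1 = a.1 + 1 ∧ b.2 = a.2)

/-- The shape with the row lengths `r`. -/
def shp {n : ℕ} (r : Fin n → ℕ) : Finset (ℕ × ℕ) :=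
  univ.biUnion fun i : Fin n => (range (r i)).image fun j => ((i : ℕ), j)

theorem mem_shp {n : ℕ} {r : Fin n → ℕ} {c : ℕ × ℕ} :
    c ∈ shp r ↔ ∃ i : Fin n, (i : ℕ) = c.1 ∧ c.2 < r i := by
  unfold shp
  simp only [mem_biUnion, mem_univ, true_and, mem_image, mem_range]
  constructor
  · rintro ⟨i, j, hj, rfl⟩
    exact ⟨i, rfl, hj⟩
  · rintro ⟨i, hi, hc⟩
    exact ⟨i, c.2, hc, by rw [hi]⟩

theorem mem_shp' {n : ℕ} {r : Fin n → ℕ} (i : Fin n) (j : ℕ) :
    ((i : ℕ), j) ∈ shp r ↔ j < r i := by
  rw [mem_shp]
  constructor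
  · rintro ⟨k, hk, h⟩
    have : k = i := Fin.ext hk
    subst this
    exact h
  · intro h
    exact ⟨i, rfl, h⟩

theorem card_shp {n : ℕ} (r : Fin n → ℕ) : (shp r).card = ∑ i, r i := by
  unfold shp
  rw [card_biUnion]
  · apply sum_congr rfl
    intro i _
    rw [card_image_of_injective, card_range]
    intro a b hab
    exact (Prod.ext_iff.1 hab).2
  · intro i _ j _ hij
    change Disjoint _ _
    rw [disjoint_left]
    intro c hc hc'
    rw [mem_image] at hc hc'
    obtain ⟨a, _, rfl⟩ := hc
    obtain ⟨b, _, hb⟩ := hc'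
    exact hij (Fin.ext (Prod.ext_iff.1 hb).1.symm)

/-- The last cell of row `i` is a corner. -/
def Cor {n : ℕ} (r : Fin n → ℕ) (i : Fin n) : Prop :=
  0 < r i ∧ ∀ j : Fin n, (j : ℕ) = i + 1 → r j < r i

instance {n : ℕ} (r : Fin n → ℕ) (i : Fin n) : Decidable (Cor r i) := by
  unfold Cor; infer_instance

theorem isCorner_iff {n : ℕ} (r : Fin n → ℕ) (i : Fin n) (j : ℕ) :
    IsCorner Adj (shp r) ((i : ℕ), j) ↔ Cor r i ∧ j + 1 = r i := by
  constructor
  · rintro ⟨h1, h2⟩
    rw [mem_shp'] at h1
    have h3 : j + 1 = r i := by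
      by_contra hne
      apply h2 ((i : ℕ), j + 1)
      · rw [mem_shp']; omega
      · left; exact ⟨rfl, rfl⟩
    refine ⟨⟨by omega, fun k hk => ?_⟩, h3⟩
    by_contra hlt
    apply h2 ((k : ℕ), j)
    · rw [mem_shp']; omega
    · right; exact ⟨hk, rfl⟩
  · rintro ⟨⟨h1, h2⟩, h3⟩
    refine ⟨by rw [mem_shp']; omega, ?_⟩
    rintro ⟨a, b⟩ hy hadj
    rw [mem_shp] at hy
    obtain ⟨k, hk, hb⟩ := hy
    simp only at hk hb
    rcases hadj with ⟨h4, h5⟩ | ⟨h4, h5⟩
    · simp only at h4 h5
      have : k = i := Fin.ext (hk.trans h4)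
      subst this
      omega
    · simp only at h4 h5
      have := h2 k (hk.trans h4)
      omega

theorem erase_shp {n : ℕ} (r : Fin n → ℕ) (i : Fin n) (j : ℕ) (h : j + 1 = r i) :
    (shp r).erase ((i : ℕ), j) = shp (update r i (r i - 1)) := by
  ext ⟨a, b⟩
  rw [mem_erase, mem_shp, mem_shp]
  constructor
  · rintro ⟨hne, k, hk, hb⟩
    refine ⟨k, hk, ?_⟩
    by_cases hki : k = i
    · subst hki
      rw [update_self]
      simp only at hk hb ⊢
      have : b ≠ j := by
        rintro rfl
        exact hne (by rw [← hk])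
      omega
    · rw [update_of_ne hki]; exact hb
  · rintro ⟨k, hk, hb⟩
    by_cases hki : k = i
    · subst hki
      rw [update_self] at hb
      simp only at hk hb
      refine ⟨?_, k, hk, by simp only; omega⟩
      intro h'
      rw [Prod.ext_iff] at h'
      simp only at h'
      omega
    · rw [update_of_ne hki] at hb
      refine ⟨?_, k, hk, hb⟩
      intro h'
      rw [Prod.ext_iff] at h'
      simp only at h' hk
      exact hki (Fin.ext (hk.trans h'.1))

/-- The recursion for shapes. -/
theorem num_shp_rec {n : ℕ} (r : Fin n → ℕ) (h : 0 < ∑ i, r i) :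
    num Adj (shp r) = ∑ i ∈ univ.filter (Cor r), num Adj (shp (update r i (r i - 1))) := by
  classical
  have hne : (shp r).Nonempty := by rw [← card_pos, card_shp]; exact h
  rw [num_rec _ hne]
  symm
  apply sum_bij (fun (i : Fin n) _ => ((i : ℕ), r i - 1))
  · intro i hi
    have hc := (mem_filter.1 hi).2
    have : IsCorner Adj (shp r) ((i : ℕ), r i - 1) := by
      rw [isCorner_iff]
      refine ⟨hc, ?_⟩
      have := hc.1
      omega
    exact mem_filter.2 ⟨this.1, this⟩
  · intro i _ j _ hij
    exact Fin.ext (Prod.ext_iff.1 hij).1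
  · rintro ⟨a, b⟩ hc
    obtain ⟨h1, h2⟩ := mem_filter.1 hc
    obtain ⟨i, hi, hb⟩ := mem_shp.1 h1
    simp only at hi hb
    subst hi
    rw [isCorner_iff] at h2
    exact ⟨i, mem_filter.2 ⟨mem_univ _, h2.1⟩, by rw [← h2.2]; rfl⟩
  · intro i hi
    have hc := (mem_filter.1 hi).2
    rw [erase_shp]
    have := hc.1
    omega

/-- The shifted row lengths. -/
def lv {n : ℕ} (r : Fin n → ℕ) (i : Fin n) : ℕ := r i + (Fin.rev i : ℕ)

/-- The closed form. -/
noncomputable def G {n : ℕ} (l : Fin n → ℕ) : ℚ :=
  ((∑ i, l i - ∑ j : Fin n, (j : ℕ)).factorial : ℚ) * V (fun i => (l i : ℚ)) /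
    ∏ i, ((l i).factorial : ℚ)

theorem G_rec {n : ℕ} (l : Fin n → ℕ) (h : ∑ j : Fin n, (j : ℕ) < ∑ i, l i) :
    ∑ i ∈ univ.filter (fun i => 0 < l i), G (update l i (l i - 1)) = G l := by
  obtain ⟨A, hA⟩ : ∃ A, ∑ i, l i = ∑ j : Fin n, (j : ℕ) + (A + 1) :=
    ⟨∑ i, l i - ∑ j : Fin n, (j : ℕ) - 1, by omega⟩
  have hP : (∏ i, ((l i).factorial : ℚ)) ≠ 0 := by
    rw [prod_ne_zero_iff]
    intro i _
    exact_mod_cast (l i).factorial_ne_zero
  have h1 : ∀ i, 0 < l i → G (update l i (l i - 1)) =
      (A.factorial : ℚ) / (∏ i, ((l i).factorial : ℚ)) *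
        ((l i : ℚ) * V (update (fun i => (l i : ℚ)) i ((l i : ℚ) - 1))) := by
    intro i hi
    unfold G
    have e1 : ∑ k, update l i (l i - 1) k = ∑ j : Fin n, (j : ℕ) + A := by
      have h2 := sum_update_of_mem (mem_univ i) l (l i - 1)
      have h3 := add_sum_erase univ l (mem_univ i)
      rw [h2, sdiff_singleton_eq_erase]
      omega
    have e2 : (∏ k, ((update l i (l i - 1) k).factorial : ℚ)) * (l i : ℚ) =
        ∏ k, ((l k).factorial : ℚ) := by
      rw [← mul_prod_erase univ _ (mem_univ i), ← mul_prod_erase univ (fun k => ((l k).factorial : ℚ))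
        (mem_univ i), update_self]
      have e3 : ∏ k ∈ univ.erase i, ((update l i (l i - 1) k).factorial : ℚ) =
          ∏ k ∈ univ.erase i, ((l k).factorial : ℚ) := by
        apply prod_congr rfl
        intro k hk
        rw [update_of_ne (ne_of_mem_erase hk)]
      rw [e3]
      have e4 : ((l i).factorial : ℚ) = (l i : ℚ) * ((l i - 1).factorial : ℚ) := by
        obtain ⟨k, hk⟩ : ∃ k, l i = k + 1 := ⟨l i - 1, by omega⟩
        rw [hk, Nat.factorial_succ]
        push_cast
        simp
      rw [e4]; ring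
    have e5 : (fun k => ((update l i (l i - 1) k : ℕ) : ℚ)) =
        update (fun i => (l i : ℚ)) i ((l i : ℚ) - 1) := by
      funext k
      by_cases hk : k = i
      · subst hk
        rw [update_self, update_self]
        rw [Nat.cast_sub hi]; simp
      · rw [update_of_ne hk, update_of_ne hk]
    rw [e1, e5, Nat.add_sub_cancel_left, ← e2]
    have hl : (l i : ℚ) ≠ 0 := by
      have : l i ≠ 0 := by omega
      exact_mod_cast this
    have hP' : (∏ k, ((update l i (l i - 1) k).factorial : ℚ)) ≠ 0 := by
      rw [prod_ne_zero_iff]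
      intro k _
      exact_mod_cast (Nat.factorial_ne_zero _)
    field_simp
  rw [sum_congr rfl (fun i hi => h1 i (mem_filter.1 hi).2), ← mul_sum]
  have h2 : ∑ i ∈ univ.filter (fun i => 0 < l i),
      ((l i : ℚ) * V (update (fun i => (l i : ℚ)) i ((l i : ℚ) - 1))) =
      ∑ i, ((l i : ℚ) * V (update (fun i => (l i : ℚ)) i ((l i : ℚ) - 1))) := by
    rw [sum_filter]
    apply sum_congr rfl
    intro i _
    split_ifs with hi
    · rfl
    · have : l i = 0 := by omega
      simp [this]
  rw [h2, V_identity]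
  unfold G
  have h3 : ∑ i, (l i : ℚ) - ∑ j : Fin n, (j : ℚ) = (A : ℚ) + 1 := by
    have : ((∑ i, l i : ℕ) : ℚ) = ((∑ j : Fin n, (j : ℕ) + (A + 1) : ℕ) : ℚ) := by rw [hA]
    push_cast at this
    rw [this]; ring
  rw [h3, hA, Nat.add_sub_cancel_left, Nat.factorial_succ]
  push_cast
  ring

theorem V_revseq : ∀ n : ℕ, V (fun i : Fin n => ((Fin.rev i : ℕ) : ℚ)) =
    ∏ i : Fin n, (((Fin.rev i : ℕ)).factorial : ℚ) := by
  intro n
  induction n with
  | zero => simp [V]
  | succ n ih =>
    have h1 : (fun i : Fin (n + 1) => ((Fin.rev i : ℕ) : ℚ)) =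
        Fin.cons (n : ℚ) (fun i : Fin n => ((Fin.rev i : ℕ) : ℚ)) := by
      funext i
      refine Fin.cases ?_ (fun j => ?_) i
      · simp
      · rw [Fin.cons_succ]
        simp only [Fin.val_rev, Fin.val_succ]
        congr 1
        omega
    rw [h1, V_cons, ih, Fin.prod_univ_succ]
    congr 1
    · have h2 : ∀ j : Fin n, ((n : ℚ) - ((Fin.rev j : ℕ) : ℚ)) = ((j : ℕ) : ℚ) + 1 := by
        intro j
        have : (Fin.rev j : ℕ) + ((j : ℕ) + 1) = n := by
          simp only [Fin.val_rev]; omega
        have h' : ((Fin.rev j : ℕ) : ℚ) + (((j : ℕ) : ℚ) + 1) = (n : ℚ) := by exact_mod_cast this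
        linarith
      simp only [h2]
      rw [Fin.prod_univ_eq_prod_range (fun j => ((j : ℚ) + 1)) n]
      simp only [Fin.rev_zero, Fin.val_last]
      rw [← prod_range_add_one_eq_factorial]
      push_cast
      rfl
    · apply prod_congr rfl
      intro i _
      congr 2
      simp only [Fin.val_rev, Fin.val_succ]
      omega

theorem sum_rev (n : ℕ) : ∑ i : Fin n, (Fin.rev i : ℕ) = ∑ j : Fin n, (j : ℕ) :=
  Equiv.sum_comp (Fin.revPerm (n := n)) (fun j => (j : ℕ))

theorem sum_lv {n : ℕ} (r : Fin n → ℕ) :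
    ∑ i, lv r i = ∑ j : Fin n, (j : ℕ) + ∑ i, r i := by
  unfold lv
  rw [sum_add_distrib, sum_rev, add_comm]

theorem lv_update {n : ℕ} (r : Fin n → ℕ) (i : Fin n) (h : 0 < r i) :
    lv (update r i (r i - 1)) = update (lv r) i (lv r i - 1) := by
  funext k
  unfold lv
  by_cases hk : k = i
  · subst hk
    simp only [update_self]
    omega
  · simp only [update_of_ne hk]

/-- The number of standard tableaux of a partition. -/
theorem num_partition {n : ℕ} : ∀ (s : ℕ) (r : Fin n → ℕ), ∑ i, r i = s → Antitone r →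
    (num Adj (shp r) : ℚ) = G (lv r) := by
  intro s
  induction s with
  | zero =>
    intro r hr _
    have h0 : r = 0 := by
      funext i
      exact (sum_eq_zero_iff.1 hr) i (mem_univ i)
    subst h0
    have h1 : shp (0 : Fin n → ℕ) = ∅ := by
      rw [← card_eq_zero, card_shp]; simp
    rw [h1, num_empty]
    unfold G
    have h2 : lv (0 : Fin n → ℕ) = fun i => (Fin.rev i : ℕ) := by
      funext i; simp [lv]
    rw [h2, sum_rev, Nat.sub_self, V_revseq]
    have hP : (∏ i : Fin n, (((Fin.rev i : ℕ)).factorial : ℚ)) ≠ 0 := by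
      rw [prod_ne_zero_iff]
      intro i _
      exact_mod_cast (Nat.factorial_ne_zero _)
    field_simp
    simp
  | succ s ih =>
    intro r hr hanti
    rw [num_shp_rec r (by omega)]
    push_cast
    rw [← G_rec (lv r) (by rw [sum_lv]; omega)]
    have hsub : univ.filter (Cor r) ⊆ univ.filter (fun i => 0 < lv r i) := by
      intro i hi
      have hc := (mem_filter.1 hi).2
      refine mem_filter.2 ⟨mem_univ i, ?_⟩
      have := hc.1
      unfold lv
      omega
    rw [← sum_subset hsub]
    · apply sum_congr rfl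
      intro i hi
      have hc := (mem_filter.1 hi).2
      have hpos := hc.1
      rw [ih (update r i (r i - 1)), lv_update r i hpos]
      · have h2 := sum_update_of_mem (mem_univ i) r (r i - 1)
        have h3 := add_sum_erase univ r (mem_univ i)
        rw [h2, sdiff_singleton_eq_erase]
        omega
      · intro a b hab
        by_cases hbi : b = i
        · subst hbi
          rw [update_self]
          by_cases hab' : a = b
          · subst hab'; rw [update_self]
          · rw [update_of_ne hab']
            have := hanti hab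
            omega
        · rw [update_of_ne hbi]
          by_cases hai : a = i
          · subst hai
            rw [update_self]
            have hlt : a < b := lt_of_le_of_ne hab (fun h => hbi h.symm)
            have hlt' : (a : ℕ) + 1 ≤ (b : ℕ) := hlt
            have hb' : (a : ℕ) + 1 < n := lt_of_le_of_lt hlt' b.2
            have h4 := hc.2 ⟨(a : ℕ) + 1, hb'⟩ rfl
            have h5 : r b ≤ r ⟨(a : ℕ) + 1, hb'⟩ := hanti hlt'
            omega
          · rw [update_of_ne hai]
            exact hanti hab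
    · intro i hi hi'
      have hpos := (mem_filter.1 hi).2
      have hnc : ¬ Cor r i := fun h => hi' (mem_filter.2 ⟨mem_univ i, h⟩)
      unfold G
      have hV : V (fun k => ((update (lv r) i (lv r i - 1) k : ℕ) : ℚ)) = 0 := by
        unfold Cor at hnc
        rw [not_and_or] at hnc
        -- a non-corner row
        by_cases hex : ∃ j : Fin n, (j : ℕ) = i + 1 ∧ r i ≤ r j
        · obtain ⟨j, hj, hrj⟩ := hex
          have hij : i < j := by rw [Fin.lt_def]; omega
          have hji : r j = r i := le_antisymm (hanti hij.le) hrj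
          apply V_eq_zero _ hij
          rw [update_self, update_of_ne (ne_of_gt hij)]
          congr 1
          unfold lv
          rw [hji]
          simp only [Fin.val_rev]
          omega
        · exfalso
          push Not at hex
          rcases hnc with h | h
          · have hri : r i = 0 := by omega
            by_cases hin : (i : ℕ) + 1 < n
            · have := hex ⟨(i : ℕ) + 1, hin⟩ rfl
              omega
            · unfold lv at hpos
              rw [hri] at hpos
              simp only [Fin.val_rev] at hpos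
              omega
          · exact h hex
      rw [hV]; simp

end Pool.Agent.Helper2SYT
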