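import Pool.Agent.Helper2SYT.Shape

set_option autoImplicit false
set_option linter.unusedSectionVars false

/-!
# Splitting the standard tableaux of a truncated square at a pivot cell
-/

namespace Pool.Agent.Helper2SYT

open Finset Function

section

variable {N : ℕ}

theorem cor_cons (a : ℕ) (ρ : Fin (N + 1) → ℕ) (i : Fin (N + 1)) :
    Cor (Fin.cons a ρ : Fin (N + 2) → ℕ) i.succ ↔ Cor ρ i := by
  unfold Cor
  rw [Fin.cons_succ]
  apply and_congr_right
  intro _
  constructor
  · intro h j hj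
    have := h j.succ (by simp [hj])
    rwa [Fin.cons_succ] at this
  · intro h j hj
    have hj0 : j ≠ 0 := by
      rintro rfl
      simp at hj
    obtain ⟨k, rfl⟩ := Fin.exists_succ_eq.2 hj0
    rw [Fin.cons_succ]
    apply h
    simpa using hj

theorem not_cor_cons_zero (a : ℕ) (ρ : Fin (N + 1) → ℕ) (h : a ≤ ρ 0) :
    ¬ Cor (Fin.cons a ρ : Fin (N + 2) → ℕ) 0 := by
  rintro ⟨_, h2⟩
  have := h2 (Fin.succ 0) (by simp)
  rw [Fin.cons_succ, Fin.cons_zero] at this
  omega

/-- the number of tableaux below the rows `ρ` -/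
noncomputable def gg (N : ℕ) (ρ : Fin (N + 1) → ℕ) : ℕ :=
  num Adj (shp (Fin.cons N ρ : Fin (N + 2) → ℕ))

theorem gg_rec (hN : 0 < N) (ρ : Fin (N + 1) → ℕ) (h : N ≤ ρ 0) :
    gg N ρ = ∑ i ∈ univ.filter (Cor ρ), gg N (update ρ i (ρ i - 1)) := by
  unfold gg
  rw [num_shp_rec _ (by rw [Fin.sum_univ_succ, Fin.cons_zero]; omega)]
  rw [sum_filter, sum_filter, Fin.sum_univ_succ, if_neg (not_cor_cons_zero N ρ h), zero_add]
  apply sum_congr rfl
  intro i _
  simp only [cor_cons]
  rw [Fin.cons_succ, Fin.cons_update]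

/-- the complement of the rows `ρ`, rotated -/
def cpl (N : ℕ) (ρ : Fin (N + 1) → ℕ) : Fin (N + 1) → ℕ := fun k => N + 2 - ρ (Fin.rev k)

/-- the number of tableaux above the rows `ρ` -/
noncomputable def hh (N : ℕ) (ρ : Fin (N + 1) → ℕ) : ℕ := num Adj (shp (cpl N ρ))

/-- A cell can be added to row `i`. -/
def CoCor (ρ : Fin (N + 1) → ℕ) (i : Fin (N + 1)) : Prop :=
  ρ i < N + 2 ∧ ∀ j : Fin (N + 1), (j : ℕ) + 1 = i → ρ i < ρ j

instance (ρ : Fin (N + 1) → ℕ) (i : Fin (N + 1)) : Decidable (CoCor ρ i) := by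
  unfold CoCor; infer_instance

theorem cor_cpl (ρ : Fin (N + 1) → ℕ) (h : ∀ j, ρ j ≤ N + 2) (i : Fin (N + 1)) :
    Cor (cpl N ρ) (Fin.rev i) ↔ CoCor ρ i := by
  unfold Cor CoCor cpl
  rw [Fin.rev_rev]
  constructor
  · rintro ⟨h1, h2⟩
    refine ⟨by omega, fun j hj => ?_⟩
    have h3 := h2 (Fin.rev j) (by simp only [Fin.val_rev]; omega)
    rw [Fin.rev_rev] at h3
    omega
  · rintro ⟨h1, h2⟩
    refine ⟨by omega, fun j hj => ?_⟩
    have h3 := h2 (Fin.rev j) (by simp only [Fin.val_rev] at hj ⊢; omega)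
    omega

theorem update_cpl (ρ : Fin (N + 1) → ℕ) (i : Fin (N + 1)) :
    update (cpl N ρ) (Fin.rev i) (cpl N ρ (Fin.rev i) - 1) = cpl N (update ρ i (ρ i + 1)) := by
  funext k
  by_cases hk : k = Fin.rev i
  · subst hk
    rw [update_self]
    unfold cpl
    rw [Fin.rev_rev, update_self]
    omega
  · rw [update_of_ne hk]
    unfold cpl
    rw [update_of_ne]
    intro h
    exact hk (by rw [← h, Fin.rev_rev])

theorem hh_rec (ρ : Fin (N + 1) → ℕ) (h : ∀ j, ρ j ≤ N + 2) (hne : ∃ j, ρ j ≠ N + 2) :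
    hh N ρ = ∑ i ∈ univ.filter (CoCor ρ), hh N (update ρ i (ρ i + 1)) := by
  unfold hh
  rw [num_shp_rec]
  · rw [sum_filter, sum_filter, ← Equiv.sum_comp (Fin.revPerm (n := N + 1))]
    apply sum_congr rfl
    intro i _
    rw [Fin.revPerm_apply]
    simp only [cor_cpl ρ h, update_cpl]
  · obtain ⟨j, hj⟩ := hne
    apply sum_pos'
    · intro i _; exact Nat.zero_le _
    · refine ⟨Fin.rev j, mem_univ _, ?_⟩
      unfold cpl
      rw [Fin.rev_rev]
      have := h j
      omega

/-- the region of the row lengths above the pivot cell -/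
def UU (N : ℕ) : Finset (Fin (N + 1) → ℕ) :=
  open Classical in
  (Fintype.piFinset fun _ => range (N + 3)).filter (fun ρ => Antitone ρ ∧ N ≤ ρ 0)

theorem mem_UU {ρ : Fin (N + 1) → ℕ} :
    ρ ∈ UU N ↔ (∀ j, ρ j ≤ N + 2) ∧ Antitone ρ ∧ N ≤ ρ 0 := by
  unfold UU
  rw [mem_filter, Fintype.mem_piFinset]
  simp only [mem_range]
  constructor
  · rintro ⟨h1, h2⟩
    exact ⟨fun j => by have := h1 j; omega, h2⟩
  · rintro ⟨h1, h2⟩
    exact ⟨fun j => by have := h1 j; omega, h2⟩

theorem antitone_dn {n : ℕ} {r : Fin n → ℕ} (hanti : Antitone r) {i : Fin n} (hc : Cor r i) :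
    Antitone (update r i (r i - 1)) := by
  intro a b hab
  by_cases hbi : b = i
  · subst hbi
    rw [update_self]
    by_cases hab' : a = b
    · subst hab'; rw [update_self]
    · rw [update_of_ne hab']
      have := hanti hab
      omega
  · rw [update_of_ne hbi]
    by_cases hai : a = i
    · subst hai
      rw [update_self]
      have hlt : a < b := lt_of_le_of_ne hab (fun h => hbi h.symm)
      have hlt' : (a : ℕ) + 1 ≤ (b : ℕ) := hlt
      have hb' : (a : ℕ) + 1 < n := lt_of_le_of_lt hlt' b.2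
      have h4 := hc.2 ⟨(a : ℕ) + 1, hb'⟩ rfl
      have h5 : r b ≤ r ⟨(a : ℕ) + 1, hb'⟩ := hanti hlt'
      omega
    · rw [update_of_ne hai]
      exact hanti hab

theorem antitone_up {ρ : Fin (N + 1) → ℕ} (hanti : Antitone ρ) {i : Fin (N + 1)}
    (hc : CoCor ρ i) : Antitone (update ρ i (ρ i + 1)) := by
  intro a b hab
  by_cases hbi : b = i
  · subst hbi
    rw [update_self]
    by_cases hab' : a = b
    · subst hab'; rw [update_self]
    · rw [update_of_ne hab']
      have hlt : a < b := lt_of_le_of_ne hab hab'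
      have hlt' : (a : ℕ) + 1 ≤ (b : ℕ) := hlt
      have h4 := hc.2 ⟨(b : ℕ) - 1, by omega⟩ (by simp only; omega)
      have h5 : ρ ⟨(b : ℕ) - 1, by omega⟩ ≤ ρ a := hanti (by rw [Fin.le_def]; simp only; omega)
      omega
  · rw [update_of_ne hbi]
    by_cases hai : a = i
    · subst hai
      rw [update_self]
      have := hanti hab
      omega
    · rw [update_of_ne hai]
      exact hanti hab

theorem sum_pairs (F : (Fin (N + 1) → ℕ) → Fin (N + 1) → ℕ)
    (p : (Fin (N + 1) → ℕ) → Fin (N + 1) → Prop) [∀ ρ i, Decidable (p ρ i)]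
    (U : Finset (Fin (N + 1) → ℕ)) :
    ∑ ρ ∈ U, ∑ i ∈ univ.filter (p ρ), F ρ i =
      ∑ x ∈ (U ×ˢ (univ : Finset (Fin (N + 1)))).filter (fun x => p x.1 x.2), F x.1 x.2 := by
  rw [sum_filter, sum_product]
  apply sum_congr rfl
  intro ρ _
  rw [sum_filter]

/-- the last row lengths -/
def full (N : ℕ) : Fin (N + 1) → ℕ := fun _ => N + 2

theorem total_up (N : ℕ) :
    ∑ ρ ∈ UU N, hh N ρ * gg N ρ =
      gg N (full N) + ∑ ρ ∈ UU N, ∑ i ∈ univ.filter (CoCor ρ), hh N (update ρ i (ρ i + 1)) * gg N ρ := by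
  classical
  have hf : full N ∈ UU N := by
    rw [mem_UU]
    refine ⟨fun j => le_rfl, fun a b _ => le_rfl, ?_⟩
    unfold full; omega
  have h1 : hh N (full N) = 1 := by
    unfold hh
    have : shp (cpl N (full N)) = ∅ := by
      rw [← card_eq_zero, card_shp]
      simp [cpl, full]
    rw [this, num_empty]
  have h2 : univ.filter (CoCor (full N)) = ∅ := by
    rw [filter_eq_empty_iff]
    intro i _ h
    have := h.1
    unfold full at this
    omega
  rw [← add_sum_erase _ _ hf, ← add_sum_erase (UU N) (fun ρ => ∑ i ∈ univ.filter (CoCor ρ),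
    hh N (update ρ i (ρ i + 1)) * gg N ρ) hf, h1, one_mul, h2, sum_empty, zero_add]
  congr 1
  apply sum_congr rfl
  intro ρ hρ
  obtain ⟨hne, hU⟩ := mem_erase.1 hρ
  rw [mem_UU] at hU
  rw [← sum_mul, ← hh_rec ρ hU.1]
  by_contra hall
  push Not at hall
  exact hne (funext hall)

theorem total_dn (hN : 0 < N) :
    ∑ ρ ∈ UU N, hh N ρ * gg N ρ =
      ∑ ρ ∈ UU N, ∑ i ∈ univ.filter (Cor ρ), hh N ρ * gg N (update ρ i (ρ i - 1)) := by
  apply sum_congr rfl
  intro ρ hρ
  rw [mem_UU] at hρ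
  rw [← mul_sum, ← gg_rec hN ρ hρ.2.2]

/-- the splitting at the pivot -/
theorem split (hN : 0 < N) :
    gg N (full N) = ∑ ρ ∈ (UU N).filter (fun ρ => ρ 0 = N ∧ Cor ρ 0),
      hh N ρ * gg N (update ρ 0 (N - 1)) := by
  classical
  have h1 := (total_up N).symm.trans (total_dn hN)
  rw [sum_pairs (fun ρ i => hh N (update ρ i (ρ i + 1)) * gg N ρ) CoCor,
    sum_pairs (fun ρ i => hh N ρ * gg N (update ρ i (ρ i - 1))) Cor] at h1
  rw [← sum_filter_add_sum_filter_not ((UU N ×ˢ (univ : Finset (Fin (N + 1)))).filter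
    (fun x => Cor x.1 x.2)) (fun x => x.2 = 0 ∧ x.1 0 = N)] at h1
  have h2 : ∑ x ∈ (UU N ×ˢ (univ : Finset (Fin (N + 1)))).filter (fun x => CoCor x.1 x.2),
      hh N (update x.1 x.2 (x.1 x.2 + 1)) * gg N x.1 =
      ∑ x ∈ ((UU N ×ˢ (univ : Finset (Fin (N + 1)))).filter
      (fun x => Cor x.1 x.2)).filter (fun x => ¬ (x.2 = 0 ∧ x.1 0 = N)),
      hh N x.1 * gg N (update x.1 x.2 (x.1 x.2 - 1)) := by
    refine sum_bij' (fun x _ => (update x.1 x.2 (x.1 x.2 + 1), x.2))
      (fun x _ => (update x.1 x.2 (x.1 x.2 - 1), x.2)) ?_ ?_ ?_ ?_ ?_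
    · rintro ⟨ρ, i⟩ hx
      simp only [mem_filter, mem_product, mem_univ, and_true] at hx ⊢
      obtain ⟨hU, hc⟩ := hx
      rw [mem_UU] at hU ⊢
      obtain ⟨hb, hanti, h0⟩ := hU
      refine ⟨⟨⟨fun j => ?_, antitone_up hanti hc, ?_⟩, ?_, ?_⟩, ?_⟩
      · by_cases hj : j = i
        · subst hj; rw [update_self]; have := hc.1; omega
        · rw [update_of_ne hj]; exact hb j
      · by_cases hj : (0 : Fin (N + 1)) = i
        · rw [hj, update_self]; rw [hj] at h0; omega
        · rw [update_of_ne hj]; exact h0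
      · rw [update_self]; omega
      · intro j hj
        rw [update_self, update_of_ne (by rintro rfl; omega)]
        have : ρ j ≤ ρ i := hanti (by rw [Fin.le_def]; omega)
        omega
      · rintro ⟨rfl, h3⟩
        rw [update_self] at h3
        omega
    · rintro ⟨ρ, i⟩ hx
      simp only [mem_filter, mem_product, mem_univ, and_true] at hx ⊢
      obtain ⟨⟨hU, hc⟩, hn⟩ := hx
      rw [mem_UU] at hU ⊢
      obtain ⟨hb, hanti, h0⟩ := hU
      have hpos := hc.1
      refine ⟨⟨fun j => ?_, antitone_dn hanti hc, ?_⟩, ?_, ?_⟩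
      · by_cases hj : j = i
        · subst hj; rw [update_self]; have := hb j; omega
        · rw [update_of_ne hj]; exact hb j
      · by_cases hj : (0 : Fin (N + 1)) = i
        · subst hj
          rw [update_self]
          have : ρ 0 ≠ N := fun h => hn ⟨rfl, h⟩
          omega
        · rw [update_of_ne hj]; exact h0
      · rw [update_self]; have := hb i; omega
      · intro j hj
        rw [update_self, update_of_ne (by rintro rfl; omega)]
        have : ρ i ≤ ρ j := hanti (by rw [Fin.le_def]; omega)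
        omega
    · rintro ⟨ρ, i⟩ hx
      simp only [Prod.mk.injEq, and_true]
      rw [update_self, update_idem]
      simp
    · rintro ⟨ρ, i⟩ hx
      simp only [mem_filter, mem_product, mem_univ, and_true] at hx
      have hpos := hx.1.2.1
      simp only [Prod.mk.injEq, and_true]
      rw [update_self, update_idem, Nat.sub_add_cancel hpos]
      simp
    · rintro ⟨ρ, i⟩ hx
      simp only
      rw [update_self, update_idem]
      simp
  rw [h2] at h1
  have h3 : gg N (full N) = ∑ x ∈ ((UU N ×ˢ (univ : Finset (Fin (N + 1)))).filter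
      (fun x => Cor x.1 x.2)).filter (fun x => x.2 = 0 ∧ x.1 0 = N),
      hh N x.1 * gg N (update x.1 x.2 (x.1 x.2 - 1)) := by omega
  rw [h3]
  refine sum_bij' (fun x _ => x.1) (fun ρ _ => (ρ, 0)) ?_ ?_ ?_ ?_ ?_
  · rintro ⟨ρ, i⟩ hx
    simp only [mem_filter, mem_product, mem_univ, and_true] at hx ⊢
    obtain ⟨⟨hU, hc⟩, rfl, h0⟩ := hx
    exact ⟨hU, h0, hc⟩
  · intro ρ hρ
    simp only [mem_filter, mem_product, mem_univ, and_true, true_and] at hρ ⊢
    exact ⟨⟨hρ.1, hρ.2.2⟩, hρ.2.1⟩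
  · rintro ⟨ρ, i⟩ hx
    simp only [mem_filter, mem_product, mem_univ, and_true] at hx
    rw [hx.2.1]
  · intro ρ _; rfl
  · rintro ⟨ρ, i⟩ hx
    simp only [mem_filter, mem_product, mem_univ, and_true] at hx
    obtain ⟨_, rfl, h0⟩ := hx
    simp only
    rw [h0]

theorem antitone_cons {n a : ℕ} {σ : Fin n → ℕ} (h : ∀ j, σ j ≤ a) (hσ : Antitone σ) :
    Antitone (Fin.cons a σ : Fin (n + 1) → ℕ) := by
  intro x y hxy
  induction x using Fin.cases with
  | zero =>
    induction y using Fin.cases with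
    | zero => exact le_rfl
    | succ y => rw [Fin.cons_succ, Fin.cons_zero]; exact h y
  | succ x =>
    induction y using Fin.cases with
    | zero =>
      rw [Fin.le_def] at hxy
      simp at hxy
    | succ y =>
      rw [Fin.cons_succ, Fin.cons_succ]
      exact hσ (Fin.succ_le_succ_iff.1 hxy)

/-- the sum over the partitions in the box `N × (N - 1)` -/
theorem split_box (hN : 0 < N) :
    gg N (full N) = ∑ σ ∈ (Fintype.piFinset fun _ : Fin N => range N).filter (fun σ => ∀ i j, i ≤ j → σ j ≤ σ i),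
      hh N (Fin.cons N σ) * num Adj (shp (Fin.cons N (Fin.cons (N - 1) σ) : Fin (N + 2) → ℕ)) := by
  classical
  rw [split hN]
  refine sum_bij' (fun ρ _ => Fin.tail ρ) (fun σ _ => (Fin.cons N σ : Fin (N + 1) → ℕ)) ?_ ?_ ?_ ?_ ?_
  · intro ρ hρ
    obtain ⟨hU, h0, hc⟩ := mem_filter.1 hρ
    rw [mem_UU] at hU
    obtain ⟨_, hanti, _⟩ := hU
    rw [mem_filter, Fintype.mem_piFinset]
    refine ⟨fun j => ?_, fun i j hij => hanti (Fin.succ_le_succ_iff.2 hij)⟩
    rw [mem_range]
    unfold Fin.tail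
    have h1 : ρ j.succ ≤ ρ (Fin.succ ⟨0, hN⟩) := hanti (by
      rw [Fin.succ_le_succ_iff, Fin.le_def]; exact Nat.zero_le _)
    have h2 := hc.2 (Fin.succ ⟨0, hN⟩) (by simp)
    omega
  · intro σ hσ
    obtain ⟨h1, h2⟩ := mem_filter.1 hσ
    rw [Fintype.mem_piFinset] at h1
    simp only [mem_range] at h1
    have hcons : ∀ j, (Fin.cons N σ : Fin (N + 1) → ℕ) j ≤ N := by
      intro j
      refine Fin.cases ?_ (fun k => ?_) j
      · simp
      · rw [Fin.cons_succ]; exact (h1 k).le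
    rw [mem_filter, mem_UU]
    refine ⟨⟨fun j => (hcons j).trans (by omega), ?_, ?_⟩, ?_, ?_⟩
    · exact antitone_cons (fun j => (h1 j).le) (fun i j hij => h2 i j hij)
    · rw [Fin.cons_zero]
    · rw [Fin.cons_zero]
    · refine ⟨by rw [Fin.cons_zero]; exact hN, fun j hj => ?_⟩
      have hj0 : j ≠ 0 := by
        rintro rfl
        simp at hj
      obtain ⟨k, rfl⟩ := Fin.exists_succ_eq.2 hj0
      rw [Fin.cons_succ, Fin.cons_zero]
      exact h1 k
  · intro ρ hρ
    obtain ⟨hU, h0, hc⟩ := mem_filter.1 hρ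
    have e := Fin.cons_self_tail ρ
    rw [h0] at e
    exact e
  · intro σ _
    exact Fin.tail_cons _ _
  · intro ρ hρ
    obtain ⟨hU, h0, hc⟩ := mem_filter.1 hρ
    have e1 : (Fin.cons N (Fin.tail ρ) : Fin (N + 1) → ℕ) = ρ := by
      have e := Fin.cons_self_tail ρ
      rw [h0] at e
      exact e
    have e2 : update ρ 0 (N - 1) = Fin.cons (N - 1) (Fin.tail ρ) := by
      rw [← e1, Fin.update_cons_zero, e1]
    rw [e1, e2]
    rfl

end

end Pool.Agent.Helper2SYT
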