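import Pool.Agent.Helper2SYT.Split

set_option autoImplicit false
set_option linter.unusedSectionVars false

/-!
# Sums over increasing tuples and over all tuples
-/

namespace Pool.Agent.Helper2SYT

open Finset Function

open Classical in
/-- A symmetric function which vanishes at the tuples with repetitions. -/
theorem sum_strictMono {N M : ℕ} (F : (Fin N → Fin M) → ℝ)
    (hsym : ∀ (a : Fin N → Fin M) (τ : Equiv.Perm (Fin N)), F (a ∘ τ) = F a)
    (hinj : ∀ a : Fin N → Fin M, ¬ Injective a → F a = 0) :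
    (N.factorial : ℝ) * ∑ b ∈ univ.filter (fun b : Fin N → Fin M => StrictMono b), F b =
      ∑ a : Fin N → Fin M, F a := by
  have h1 : ∑ a : Fin N → Fin M, F a =
      ∑ a ∈ univ.filter (fun a : Fin N → Fin M => Injective a), F a := by
    rw [sum_filter]
    apply sum_congr rfl
    intro a _
    split_ifs with h
    · rfl
    · exact hinj a h
  rw [h1]
  have h2 : (N.factorial : ℝ) * ∑ b ∈ univ.filter (fun b : Fin N → Fin M => StrictMono b), F b =
      ∑ x ∈ (univ : Finset (Equiv.Perm (Fin N))) ×ˢ
        univ.filter (fun b : Fin N → Fin M => StrictMono b), F (x.2 ∘ x.1) := by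
    rw [sum_product]
    simp only [hsym]
    rw [sum_const, card_univ, Fintype.card_perm, Fintype.card_fin, nsmul_eq_mul]
  rw [h2]
  apply sum_bij (fun x _ => x.2 ∘ x.1)
  · rintro ⟨τ, b⟩ hx
    simp only [mem_product, mem_univ, mem_filter, true_and] at hx ⊢
    exact hx.injective.comp τ.injective
  · rintro ⟨τ, b⟩ hx ⟨τ', b'⟩ hx' h
    simp only [mem_product, mem_univ, mem_filter, true_and] at hx hx' h
    have hr : Set.range b = Set.range b' := by
      rw [← τ.surjective.range_comp b, ← τ'.surjective.range_comp b', h]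
    have hb : b = b' := (StrictMono.range_inj hx hx').1 hr
    subst hb
    have hτ : τ = τ' := by
      apply Equiv.ext
      intro i
      exact hx.injective (congrFun h i)
    rw [hτ]
  · intro a ha
    have ha' : Injective a := (mem_filter.1 ha).2
    refine ⟨((Tuple.sort a)⁻¹, a ∘ Tuple.sort a), ?_, ?_⟩
    · simp only [mem_product, mem_univ, mem_filter, true_and]
      exact (Tuple.monotone_sort a).strictMono_of_injective (ha'.comp (Tuple.sort a).injective)
    · funext i
      simp
  · rintro ⟨τ, b⟩ hx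
    rfl

theorem strictMono_ge {n : ℕ} {f : Fin n → ℕ} (hf : StrictMono f) : ∀ i : Fin n, (i : ℕ) ≤ f i := by
  rintro ⟨i, hi⟩
  induction i with
  | zero => exact Nat.zero_le _
  | succ i ih =>
    have h1 := ih (by omega)
    have h2 : f ⟨i, by omega⟩ < f ⟨i + 1, hi⟩ := hf (by rw [Fin.lt_def]; simp)
    simp only at h1 ⊢
    omega

theorem sum_injective_ge {n : ℕ} {f : Fin n → ℕ} (hf : Injective f) :
    ∑ j : Fin n, (j : ℕ) ≤ ∑ j, f j := by
  have h1 : StrictMono (f ∘ Tuple.sort f) :=
    (Tuple.monotone_sort f).strictMono_of_injective (hf.comp (Tuple.sort f).injective)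
  rw [← Equiv.sum_comp (Tuple.sort f) f]
  exact sum_le_sum (fun i _ => strictMono_ge h1 i)

open Classical in
/-- partitions in the box `(m+1) × m` and increasing tuples -/
theorem sum_box (m : ℕ) (Φ : (Fin (m + 1) → ℕ) → ℝ) :
    ∑ σ ∈ (Fintype.piFinset fun _ : Fin (m + 1) => range (m + 1)).filter
      (fun σ => ∀ i j, i ≤ j → σ j ≤ σ i), Φ (lv σ) =
    ∑ b ∈ univ.filter (fun b : Fin (m + 1) → Fin (2 * m + 1) => StrictMono b),
      Φ (fun j => (b (Fin.rev j) : ℕ)) := by
  have hlv : ∀ σ : Fin (m + 1) → ℕ, (∀ i, σ i < m + 1) → ∀ j, lv σ j < 2 * m + 1 := by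
    intro σ h j
    have := h j
    unfold lv
    simp only [Fin.val_rev]
    omega
  refine sum_bij' (fun σ hσ => fun j => ⟨lv σ (Fin.rev j), hlv σ (fun i => by
      have := (mem_filter.1 hσ).1
      rw [Fintype.mem_piFinset] at this
      exact mem_range.1 (this i)) _⟩)
    (fun b _ => fun j => (b (Fin.rev j) : ℕ) - (Fin.rev j : ℕ)) ?_ ?_ ?_ ?_ ?_
  · intro σ hσ
    obtain ⟨h1, h2⟩ := mem_filter.1 hσ
    rw [mem_filter]
    refine ⟨mem_univ _, ?_⟩
    intro i j hij
    rw [Fin.lt_def]
    simp only
    have h3 := h2 (Fin.rev j) (Fin.rev i) (Fin.rev_le_rev.2 hij.le)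
    unfold lv
    rw [Fin.rev_rev, Fin.rev_rev]
    have : (i : ℕ) < j := hij
    omega
  · intro b hb
    have hb' : StrictMono b := (mem_filter.1 hb).2
    have hbn : StrictMono (fun j => (b j : ℕ)) := fun i j hij => hb' hij
    have hge := strictMono_ge hbn
    rw [mem_filter, Fintype.mem_piFinset]
    have hstep : ∀ i j : Fin (m + 1), i ≤ j → (b i : ℕ) + (j : ℕ) ≤ (b j : ℕ) + (i : ℕ) := by
      intro i j hij
      obtain ⟨k, hk⟩ : ∃ k, (j : ℕ) = i + k := ⟨j - i, by have : (i : ℕ) ≤ j := hij; omega⟩
      induction k generalizing j with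
      | zero =>
        have : i = j := Fin.ext (by omega)
        subst this
        exact le_rfl
      | succ k ih =>
        have h3 := ih ⟨(i : ℕ) + k, by omega⟩ (by rw [Fin.le_def]; simp) rfl
        have h4 : (b ⟨(i : ℕ) + k, by omega⟩ : ℕ) < b j := hbn (by rw [Fin.lt_def]; simp; omega)
        simp only at h3
        omega
    refine ⟨fun j => ?_, fun i j hij => ?_⟩
    · rw [mem_range]
      have h3 := hstep (Fin.rev j) (Fin.last m) (Fin.le_last _)
      have h4 := (b (Fin.last m)).2
      rw [Fin.val_last] at h3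
      omega
    · have h3 := hstep (Fin.rev j) (Fin.rev i) (Fin.rev_le_rev.2 hij)
      have h4 := hge (Fin.rev j)
      have h5 := hge (Fin.rev i)
      change (b (Fin.rev j) : ℕ) - (Fin.rev j : ℕ) ≤ (b (Fin.rev i) : ℕ) - (Fin.rev i : ℕ)
      omega
  · intro σ hσ
    funext j
    simp only [Fin.rev_rev]
    unfold lv
    omega
  · intro b hb
    have hb' : StrictMono b := (mem_filter.1 hb).2
    have hbn : StrictMono (fun j => (b j : ℕ)) := fun i j hij => hb' hij
    have hge := strictMono_ge hbn
    funext j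
    apply Fin.ext
    simp only [lv, Fin.rev_rev]
    have := hge j
    omega
  · intro σ hσ
    congr 1
    funext j
    simp only [Fin.rev_rev]

end Pool.Agent.Helper2SYT
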